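import Pool.Agent.Lib.H1F.AT.A5

/-!
# H1F, part AT, chunk A6

Points and local rings on a separated scheme.
-/

open CategoryTheory CategoryTheory.Limits AlgebraicGeometry Order

universe u

namespace H1F

variable {k : Type u} [Field k] {ι κ : Type} [Finite ι] [Nonempty ι] [Finite κ] [Nonempty κ]
  {X : Over (Spec (CommRingCat.of k))} [IsIntegral X.left] {U : ι → X.left.Opens}
  {R : ι → Subalgebra k X.left.functionField}

/-- The morphism from the spectrum of the function field. -/
noncomputable def A6_gen (X : Over (Spec (CommRingCat.of k))) [IsIntegral X.left] :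
    Spec (CommRingCat.of X.left.functionField) ⟶ X.left :=
  X.left.fromSpecStalk (genericPoint X.left)

/-- The morphism from the spectrum of the local ring. -/
theorem A6_local (X : Over (Spec (CommRingCat.of k))) [IsIntegral X.left] (x : X.left) :
    ∃ σ : Spec (CommRingCat.of (localRing k X x)) ⟶ X.left,
      Spec.map (CommRingCat.ofHom (localRing k X x).val.toRingHom) ≫ σ = A6_gen X ∧
      Set.range σ = {y | y ⤳ x} ∧
      ∀ z : Spec (CommRingCat.of (localRing k X x)),
        (haveI := isLocalRing_localRing X x; z = IsLocalRing.closedPoint (localRing k X x)) →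
        σ z = x := by
  obtain ⟨e, he⟩ := exists_localRing_equiv X x
  let E : X.left.presheaf.stalk x ⟶ CommRingCat.of (localRing k X x) :=
    CommRingCat.ofHom e.toRingHom
  have hE : IsIso (Spec.map E) := isIso_SpecMap_iff.2 e.bijective
  refine ⟨Spec.map E ≫ X.left.fromSpecStalk x, ?_, ?_, ?_⟩
  · have h1 : E ≫ CommRingCat.ofHom (localRing k X x).val.toRingHom =
        X.left.presheaf.stalkSpecializes ((genericPoint_spec X.left).specializes trivial) := by
      ext s
      exact he s
    rw [← Category.assoc, ← Spec.map_comp, h1, A6_gen,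
      Scheme.SpecMap_stalkSpecializes_fromSpecStalk]
  · rw [Scheme.Hom.comp_base, TopCat.coe_comp, Set.range_comp]
    have : Set.range (Spec.map E) = Set.univ := (Spec.map E).surjective.range_eq
    rw [this, Set.image_univ, Scheme.range_fromSpecStalk]
  · intro z hz
    have := isLocalRing_localRing X x
    have h1 : Spec.map E z = IsLocalRing.closedPoint (X.left.presheaf.stalk x) := by
      rw [hz]
      have hl : IsLocalHom e.toRingHom := ⟨fun a ha ↦ by
        have h2 := ha.map e.symm.toRingHom
        have h3 : e.symm.toRingHom (e.toRingHom a) = a := e.symm_apply_apply a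
        rwa [h3] at h2⟩
      exact IsLocalRing.comap_closedPoint e.toRingHom
    rw [Scheme.Hom.comp_apply, h1, Scheme.fromSpecStalk_closedPoint]

/-- Two morphisms from the spectrum of a subring of the function field coincide if they agree on
the generic point. -/
theorem A6_unique (hX : IsSeparated X.hom) (O : Subalgebra k X.left.functionField)
    (σ τ : Spec (CommRingCat.of O) ⟶ X.left)
    (h : Spec.map (CommRingCat.ofHom O.val.toRingHom) ≫ σ =
      Spec.map (CommRingCat.ofHom O.val.toRingHom) ≫ τ) : σ = τ := by
  have hd : IsDominant (Spec.map (CommRingCat.ofHom O.val.toRingHom)) :=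
    FLIP.isDominant_specGen O
  have hb : σ ≫ X.hom = τ ≫ X.hom := by
    have h1 := congrArg (fun q ↦ q ≫ X.hom) h
    simp only [Category.assoc] at h1
    rw [← Spec.map_preimage (σ ≫ X.hom), ← Spec.map_preimage (τ ≫ X.hom)] at h1 ⊢
    rw [← Spec.map_comp, ← Spec.map_comp] at h1
    have h2 := Spec.map_injective h1
    congr 1
    ext c
    exact congrArg (fun q ↦ q.hom c) h2
  exact ext_of_isDominant_of_isSeparated X.hom hb _ h

/-- The inclusion of a subring. -/
theorem A6_incl {O O' : Subalgebra k X.left.functionField} (h : O ≤ O') :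
    Spec.map (CommRingCat.ofHom O'.val.toRingHom) ≫ specIncl h =
      Spec.map (CommRingCat.ofHom O.val.toRingHom) := by
  rw [specIncl, ← Spec.map_comp, ← CommRingCat.ofHom_comp]
  rfl

/-- AT11.  The points are determined by their local rings (`X` is separated); more generally a
point whose local ring is dominated by that of another one is equal to it.  Proof: `O_x ≤ O_y`,
dominated.  The two morphisms `Spec O_y → Spec O_x → X` and `Spec O_y → X` agree on the generic
point, hence are equal (`X` separated, `Spec O_y` integral); look at the closed points.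
(Compare helper90's FLIP/Loc.lean.) -/
theorem Charts.eq_of_dominates (c : Charts X U R) (x y : X.left)
    (h : localRing k X x ≤ localRing k X y)
    (h' : ∀ f ∈ localRing k X x, f⁻¹ ∈ localRing k X y → f⁻¹ ∈ localRing k X x) : x = y := by
  have hx := isLocalRing_localRing X x
  have hy := isLocalRing_localRing X y
  obtain ⟨σ, hσ, -, hσ'⟩ := A6_local X x
  obtain ⟨τ, hτ, -, hτ'⟩ := A6_local X y
  have h1 : τ = specIncl h ≫ σ := by
    refine A6_unique c.separated _ _ _ ?_
    rw [hτ, ← Category.assoc, A6_incl h, hσ]
  have hl : IsLocalHom (Subalgebra.inclusion h).toRingHom := by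
    refine ⟨fun a ha ↦ ?_⟩
    obtain ⟨b, hb⟩ := ha.exists_right_inv
    have h2 : (a : X.left.functionField) * b = 1 := congrArg Subtype.val hb
    have h3 : (b : X.left.functionField) = (a : X.left.functionField)⁻¹ :=
      eq_inv_of_mul_eq_one_right h2
    have h4 : (a : X.left.functionField)⁻¹ ∈ localRing k X x := h' _ a.2 (h3 ▸ b.2)
    refine IsUnit.of_mul_eq_one ⟨_, h4⟩ (Subtype.ext ?_)
    exact mul_inv_cancel₀ (left_ne_zero_of_mul_eq_one h2)
  let z : Spec (CommRingCat.of (localRing k X y)) := IsLocalRing.closedPoint (localRing k X y)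
  have h2 : specIncl h z = IsLocalRing.closedPoint (localRing k X x) :=
    IsLocalRing.comap_closedPoint (Subalgebra.inclusion h).toRingHom
  have h3 : τ z = y := hτ' z rfl
  rw [h1, Scheme.Hom.comp_apply, hσ' _ h2] at h3
  exact h3

/-- AT9.  A point is in a chart if its local ring contains the ring of the chart: the contraction
of the maximal ideal is a point of the chart with dominated local ring. -/
theorem Charts.mem_iff (c : Charts X U R) (i : ι) (x : X.left) :
    x ∈ U i ↔ R i ≤ localRing k X x := by
  refine ⟨fun hx ↦ A5_le c hx, fun h ↦ ?_⟩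
  have hx := isLocalRing_localRing X x
  obtain ⟨σ, hσ, -, hσ'⟩ := A6_local X x
  have hU := c.affine i
  have hne := c.nonempty i
  obtain ⟨θ, hθ⟩ := A5_equiv c i
  let Θ : Γ(X.left, U i) ⟶ CommRingCat.of (R i) := CommRingCat.ofHom θ.toRingHom
  have hg : genericPoint X.left ∈ U i := by
    obtain ⟨⟨x, hx⟩⟩ := hne
    exact ((genericPoint_spec X.left).specializes trivial).mem_open (U i).isOpen hx
  have h1 : Spec.map (CommRingCat.ofHom (R i).val.toRingHom) ≫ Spec.map Θ ≫ hU.fromSpec =
      A6_gen X := by
    have h2 : Θ ≫ CommRingCat.ofHom (R i).val.toRingHom =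
        X.left.presheaf.germ (U i) (genericPoint X.left) hg := by
      ext s
      exact hθ s
    rw [← Category.assoc, ← Spec.map_comp, h2]
    exact hU.fromSpecStalk_eq_fromSpecStalk hg
  have h2 : σ = specIncl h ≫ Spec.map Θ ≫ hU.fromSpec := by
    refine A6_unique c.separated _ _ _ ?_
    rw [hσ, ← Category.assoc, A6_incl h, h1]
  let z : Spec (CommRingCat.of (localRing k X x)) := IsLocalRing.closedPoint (localRing k X x)
  have h3 : σ z = x := hσ' z rfl
  rw [← h3, h2, Scheme.Hom.comp_apply, Scheme.Hom.comp_apply]
  have h4 := hU.range_fromSpec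
  have h5 : hU.fromSpec (Spec.map Θ (specIncl h z)) ∈ Set.range hU.fromSpec := ⟨_, rfl⟩
  rw [h4] at h5
  exact h5

/-- AT10.  Specialization (`X` is separated). -/
theorem Charts.specializes_iff (c : Charts X U R) (x y : X.left) :
    x ⤳ y ↔ localRing k X y ≤ localRing k X x := by
  refine ⟨fun h ↦ localRing_le_of_specializes X h, fun h ↦ ?_⟩
  have hx := isLocalRing_localRing X x
  obtain ⟨σ, hσ, hr, -⟩ := A6_local X y
  obtain ⟨τ, hτ, -, hτ'⟩ := A6_local X x
  have h1 : τ = specIncl h ≫ σ := by
    refine A6_unique c.separated _ _ _ ?_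
    rw [hτ, ← Category.assoc, A6_incl h, hσ]
  let z : Spec (CommRingCat.of (localRing k X x)) := IsLocalRing.closedPoint (localRing k X x)
  have h3 : τ z = x := hτ' z rfl
  have h4 : x ∈ Set.range σ := by
    rw [h1, Scheme.Hom.comp_apply] at h3
    exact ⟨_, h3⟩
  rw [hr] at h4
  exact h4

/-- AT19.  A ring of functions: `f ∈ R i` iff `f` is regular at all points of the chart. -/
theorem Charts.mem_ring_iff (c : Charts X U R) (i : ι) (f : X.left.functionField) :
    f ∈ R i ↔ ∀ x ∈ U i, f ∈ localRing k X x := by
  refine ⟨fun hf x hx ↦ A5_le c hx hf, fun hf ↦ ?_⟩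
  let D : Ideal (R i) :=
    { carrier := {a | (a : X.left.functionField) * f ∈ R i}
      add_mem' := fun {a b} ha hb ↦ by
        have h1 : (a : X.left.functionField) * f + b * f ∈ R i := (R i).add_mem ha hb
        rw [← add_mul] at h1
        exact h1
      zero_mem' := by
        change ((0 : R i) : X.left.functionField) * f ∈ R i
        rw [ZeroMemClass.coe_zero, zero_mul]
        exact zero_mem _
      smul_mem' := fun a b hb ↦ by
        have h1 : (a : X.left.functionField) * (b * f) ∈ R i := (R i).mul_mem a.2 hb
        rw [← mul_assoc] at h1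
        exact h1 }
  by_contra hcon
  have hD : D ≠ ⊤ := by
    intro hD
    have h1 : (1 : R i) ∈ D := by rw [hD]; trivial
    have h2 : ((1 : R i) : X.left.functionField) * f ∈ R i := h1
    rw [OneMemClass.coe_one, one_mul] at h2
    exact hcon h2
  obtain ⟨P, hP, hDP⟩ := D.exists_le_maximal hD
  obtain ⟨x, hx, hPx⟩ := c.exists_point i P
  obtain ⟨a, ha, s, hs, hs0, hs1, hfa⟩ := (c.mem_localRing hx f).1 (hf x hx)
  have h1 : (⟨s, hs⟩ : R i) ∈ D := by
    change s * f ∈ R i
    rw [hfa, mul_comm a, ← mul_assoc, mul_inv_cancel₀ hs0, one_mul]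
    exact ha
  rcases (hPx _).1 (hDP h1) with h2 | h2
  · exact hs0 h2
  · exact h2 hs1

end H1F
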