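import Pool.Agent.Lib.H1F.Defs
import Pool.Agent.Lib.H1F.Atlas
import Pool.Agent.Lib.H1F.FLIP.F1

/-!
# H1F, part AT, chunk A1

Existence of the glued scheme (helper1).
-/

open CategoryTheory CategoryTheory.Limits AlgebraicGeometry Order

universe u

namespace H1F

set_option linter.unusedSectionVars false

variable {R₀ : Type u} [CommRing R₀] {K : Type u} [Field K] [Algebra R₀ K]
  {ι κ : Type} [Finite ι] [Nonempty ι] [Finite κ] [Nonempty κ]

/-- The ring generated by the `R i`, `i ∈ s`. -/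
def A1_RS (R : ι → Subalgebra R₀ K) (s : Finset ι) : Subalgebra R₀ K := s.sup R

theorem A1_RS_mono (R : ι → Subalgebra R₀ K) {s t : Finset ι} (h : t ⊆ s) :
    A1_RS R t ≤ A1_RS R s := Finset.sup_mono h

theorem A1_RS_singleton (R : ι → Subalgebra R₀ K) (i : ι) : A1_RS R {i} = R i :=
  Finset.sup_singleton

open Classical in
theorem A1_RS_union (R : ι → Subalgebra R₀ K) (s t : Finset ι) :
    A1_RS R (s ∪ t) = A1_RS R s ⊔ A1_RS R t := Finset.sup_union

theorem A1_sup_inv (S : Subalgebra R₀ K) {g h : K} (hg : g ∈ S) (hh : h ∈ S) (hg0 : g ≠ 0)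
    (hh0 : h ≠ 0) : S ⊔ Algebra.adjoin R₀ {h⁻¹} ⊔ Algebra.adjoin R₀ {g⁻¹} =
      S ⊔ Algebra.adjoin R₀ {(g * h)⁻¹} := by
  apply le_antisymm
  · refine sup_le (sup_le le_sup_left ?_) ?_
    · rw [Algebra.adjoin_le_iff, Set.singleton_subset_iff]
      have h1 : h⁻¹ = g * (g * h)⁻¹ := by field_simp
      rw [h1]
      exact Subalgebra.mul_mem _ (le_sup_left (a := S) hg)
        (le_sup_right (a := S) (Algebra.subset_adjoin rfl))
    · rw [Algebra.adjoin_le_iff, Set.singleton_subset_iff]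
      have h1 : g⁻¹ = h * (g * h)⁻¹ := by field_simp
      rw [h1]
      exact Subalgebra.mul_mem _ (le_sup_left (a := S) hh)
        (le_sup_right (a := S) (Algebra.subset_adjoin rfl))
  · refine sup_le (le_sup_left.trans le_sup_left) ?_
    rw [Algebra.adjoin_le_iff, Set.singleton_subset_iff]
    rw [mul_inv]
    exact Subalgebra.mul_mem _ (le_sup_right (a := S ⊔ Algebra.adjoin R₀ {h⁻¹})
      (Algebra.subset_adjoin rfl))
      ((le_sup_right.trans le_sup_left : Algebra.adjoin R₀ {h⁻¹} ≤ _) (Algebra.subset_adjoin rfl))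

open Classical in
theorem A1_loc_aux {R : ι → Subalgebra R₀ K} (h : GlueCond R) {t : Finset ι} (ht : t.Nonempty)
    (s : Finset ι) : ∃ g ∈ A1_RS R t, g ≠ 0 ∧
      A1_RS R (t ∪ s) = A1_RS R t ⊔ Algebra.adjoin R₀ {g⁻¹} := by
  obtain ⟨i₀, hi₀⟩ := ht
  induction s using Finset.induction_on with
  | empty =>
    refine ⟨1, Subalgebra.one_mem _, one_ne_zero, ?_⟩
    rw [Finset.union_empty, inv_one, eq_comm, sup_eq_left, Algebra.adjoin_le_iff,
      Set.singleton_subset_iff]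
    exact Subalgebra.one_mem _
  | insert i s hi ih =>
    obtain ⟨g, hg, hg0, hgs⟩ := ih
    obtain ⟨r, hr, hr0, hrs⟩ := h.loc i₀ i
    have hle : R i₀ ≤ A1_RS R t := Finset.le_sup hi₀
    refine ⟨g * r, Subalgebra.mul_mem _ hg (hle hr), mul_ne_zero hg0 hr0, ?_⟩
    rw [← A1_sup_inv _ hg (hle hr) hg0 hr0]
    have h1 : t ∪ insert i s = (t ∪ s) ∪ {i} := by
      ext x
      simp only [Finset.mem_union, Finset.mem_insert, Finset.mem_singleton]
      tauto
    rw [h1, A1_RS_union, hgs, A1_RS_singleton]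
    have h2 : A1_RS R t ⊔ R i = A1_RS R t ⊔ Algebra.adjoin R₀ {r⁻¹} := by
      calc A1_RS R t ⊔ R i = A1_RS R t ⊔ (R i₀ ⊔ R i) := by
            rw [← sup_assoc, sup_eq_left.2 hle]
        _ = A1_RS R t ⊔ Algebra.adjoin R₀ {r⁻¹} := by
            rw [hrs, ← sup_assoc, sup_eq_left.2 hle]
    rw [sup_right_comm, h2]

theorem A1_loc {R : ι → Subalgebra R₀ K} (h : GlueCond R) {t s : Finset ι} (ht : t.Nonempty)
    (hts : t ⊆ s) : ∃ g ∈ A1_RS R t, g ≠ 0 ∧
      A1_RS R s = A1_RS R t ⊔ Algebra.adjoin R₀ {g⁻¹} := by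
  classical
  obtain ⟨g, hg, hg0, hgs⟩ := A1_loc_aux h ht s
  refine ⟨g, hg, hg0, ?_⟩
  rw [← hgs, Finset.union_eq_right.2 hts]

theorem A1_specIncl_self (S : Subalgebra R₀ K) : specIncl (le_refl S) = 𝟙 (SpecS S) := by
  rw [specIncl, ← Spec.map_id]
  rfl

theorem A1_specIncl_comp {S T U : Subalgebra R₀ K} (h1 : S ≤ T) (h2 : T ≤ U) :
    specIncl h2 ≫ specIncl h1 = specIncl (h1.trans h2) := by
  rw [specIncl, specIncl, ← Spec.map_comp]
  rfl

theorem A1_specGen_comp {S T : Subalgebra R₀ K} (h1 : S ≤ T) :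
    specGen T ≫ specIncl h1 = specGen S := by
  rw [specIncl, specGen, ← Spec.map_comp]
  rfl

theorem A1_specBase_comp {S T : Subalgebra R₀ K} (h1 : S ≤ T) :
    specIncl h1 ≫ specBase S = specBase T := by
  rw [specIncl, specBase, ← Spec.map_comp]
  rfl

theorem A1_isIso {S T : Subalgebra R₀ K} (h : S = T) : IsIso (specIncl h.le) := by
  subst h
  rw [A1_specIncl_self]
  infer_instance

/-- The open immersion and its range. -/
theorem A1_openImm {S T : Subalgebra R₀ K} {g : K} (hg : g ∈ S) (hg0 : g ≠ 0) (hST : S ≤ T)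
    (h : T = S ⊔ Algebra.adjoin R₀ {g⁻¹}) : IsOpenImmersion (specIncl hST) ∧
      Set.range (specIncl hST) = {x : SpecS S | (⟨g, hg⟩ : S) ∉ x.asIdeal} := by
  let _ : Algebra S T := (Subalgebra.inclusion hST).toRingHom.toAlgebra
  have : IsLocalization.Away (⟨g, hg⟩ : S) T := FLIP.isLocalization_away S T hg hg0 hST h
  refine ⟨IsOpenImmersion.of_isLocalization (⟨g, hg⟩ : S), ?_⟩
  exact PrimeSpectrum.localization_away_comap_range T (⟨g, hg⟩ : S)

/-- The index category. -/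
abbrev A1_J (ι : Type) := {s : Finset ι // s.Nonempty}ᵒᵈ

/-- The diagram. -/
noncomputable def A1_F (R : ι → Subalgebra R₀ K) : A1_J ι ⥤ Scheme.{u} where
  obj s := SpecS (A1_RS R s.1)
  map {s t} f := specIncl (A1_RS_mono R (show t.1 ⊆ s.1 from leOfHom f))
  map_id s := A1_specIncl_self _
  map_comp f g := (A1_specIncl_comp _ _).symm

theorem A1_F_open {R : ι → Subalgebra R₀ K} (h : GlueCond R) {s t : A1_J ι} (f : s ⟶ t) :
    IsOpenImmersion ((A1_F R).map f) := by
  obtain ⟨g, hg, hg0, hgs⟩ := A1_loc h t.2 (show t.1 ⊆ s.1 from leOfHom f)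
  exact (A1_openImm hg hg0 _ hgs).1

theorem A1_point {S T T' U : Subalgebra R₀ K} {g g' : K} (hg : g ∈ S) (hg0 : g ≠ 0) (hST : S ≤ T)
    (h : T = S ⊔ Algebra.adjoin R₀ {g⁻¹}) (hg' : g' ∈ S) (hg0' : g' ≠ 0) (hST' : S ≤ T')
    (h' : T' = S ⊔ Algebra.adjoin R₀ {g'⁻¹}) (hU : U = T ⊔ T') (hTU : T ≤ U) (hTU' : T' ≤ U)
    (x : SpecS T) (x' : SpecS T') (hx : specIncl hST x = specIncl hST' x') :
    ∃ z : SpecS U, specIncl hTU z = x ∧ specIncl hTU' z = x' := by
  have e1 : U = S ⊔ Algebra.adjoin R₀ {(g' * g)⁻¹} := by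
    rw [← A1_sup_inv S hg' hg hg0' hg0, ← h, hU, h']
    rw [← sup_assoc, sup_eq_left.2 hST]
  have hm : g' * g ∈ S := Subalgebra.mul_mem _ hg' hg
  have o1 := A1_openImm hg hg0 hST h
  have o2 := A1_openImm hg' hg0' hST' h'
  have o3 := A1_openImm hm (mul_ne_zero hg0' hg0) (hST.trans hTU) e1
  have hy : specIncl hST x ∈ Set.range (specIncl (hST.trans hTU)) := by
    rw [o3.2]
    intro hmem
    have : (⟨g', hg'⟩ : S) * ⟨g, hg⟩ ∈ (specIncl hST x).asIdeal := hmem
    rcases (specIncl hST x).isPrime.mem_or_mem this with h3 | h3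
    · have h4 : specIncl hST x ∈ Set.range (specIncl hST') := by rw [hx]; exact ⟨x', rfl⟩
      rw [o2.2] at h4
      exact h4 h3
    · have h4 : specIncl hST x ∈ Set.range (specIncl hST) := ⟨x, rfl⟩
      rw [o1.2] at h4
      exact h4 h3
  obtain ⟨z, hz⟩ := hy
  have := o1.1
  have := o2.1
  refine ⟨z, ?_, ?_⟩
  · apply (specIncl hST).isOpenEmbedding.injective
    rw [← Scheme.Hom.comp_apply, A1_specIncl_comp, hz]
  · apply (specIncl hST').isOpenEmbedding.injective
    rw [← Scheme.Hom.comp_apply, A1_specIncl_comp, ← hx, ← hz]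

theorem A1_F_dir {R : ι → Subalgebra R₀ K} (h : GlueCond R) :
    ((A1_F R) ⋙ Scheme.forget).IsLocallyDirected := by
  classical
  refine ⟨?_⟩
  intro i j k fi fj xi xj hx
  let l : A1_J ι := ⟨i.1 ∪ j.1, i.2.mono Finset.subset_union_left⟩
  have hki : k.1 ⊆ i.1 := leOfHom fi
  have hkj : k.1 ⊆ j.1 := leOfHom fj
  have hil : i.1 ⊆ l.1 := Finset.subset_union_left
  have hjl : j.1 ⊆ l.1 := Finset.subset_union_right
  obtain ⟨g, hg, hg0, hgs⟩ := A1_loc h k.2 hki
  obtain ⟨g', hg', hg0', hgs'⟩ := A1_loc h k.2 hkj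
  obtain ⟨z, hz, hz'⟩ := A1_point hg hg0 (A1_RS_mono R hki) hgs hg' hg0' (A1_RS_mono R hkj) hgs'
    (A1_RS_union R i.1 j.1) (A1_RS_mono R hil) (A1_RS_mono R hjl) xi xj hx
  exact ⟨l, homOfLE hil, homOfLE hjl, z, hz, hz'⟩


section Construct

variable {R : ι → Subalgebra R₀ K}

/-- Objects. -/
def A1_mk (s : Finset ι) (hs : s.Nonempty) : A1_J ι := OrderDual.toDual ⟨s, hs⟩

/-- The structure morphism. -/
noncomputable def A1_cocone (R : ι → Subalgebra R₀ K) : Cocone (A1_F R) where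
  pt := Spec (CommRingCat.of R₀)
  ι := { app := fun s ↦ specBase (A1_RS R s.1)
         naturality := fun s t f ↦ by
          simp only [Functor.const_obj_obj, Functor.const_obj_map]
          exact A1_specBase_comp (A1_RS_mono R (leOfHom f)) }

theorem A1_exists (h : GlueCond R) : ∃ (X : Scheme.{u}) (f : X ⟶ Spec (CommRingCat.of R₀))
    (c : ∀ s : Finset ι, s.Nonempty → (SpecS (A1_RS R s) ⟶ X)),
    (∀ s hs, IsOpenImmersion (c s hs)) ∧ (∀ s hs, c s hs ≫ f = specBase _) ∧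
    (∀ s hs t ht (hst : t ⊆ s), specIncl (A1_RS_mono R hst) ≫ c t ht = c s hs) ∧
    (∀ x : X, ∃ s hs, ∃ y, c s hs y = x) ∧
    (∀ s hs t ht x y, c s hs x = c t ht y → ∃ u, ∃ (hu : u.Nonempty) (hsu : s ⊆ u)
      (htu : t ⊆ u), ∃ z : SpecS (A1_RS R u), specIncl (A1_RS_mono R hsu) z = x ∧
        specIncl (A1_RS_mono R htu) z = y) := by
  have h1 : ∀ {s t : A1_J ι} (f : s ⟶ t), IsOpenImmersion ((A1_F R).map f) := A1_F_open h
  have h2 := A1_F_dir h
  have h3 : ∀ s : A1_J ι, IsOpenImmersion (colimit.ι (A1_F R) s) := fun s ↦ inferInstance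
  refine ⟨colimit (A1_F R), colimit.desc (A1_F R) (A1_cocone R),
    fun s hs ↦ colimit.ι (A1_F R) (A1_mk s hs), fun s hs ↦ h3 _, fun s hs ↦ ?_,
    fun s hs t ht hst ↦ ?_, fun x ↦ ?_, fun s hs t ht x y hxy ↦ ?_⟩
  · exact colimit.ι_desc (A1_cocone R) (A1_mk s hs)
  · have hle : A1_mk s hs ≤ A1_mk t ht := hst
    exact colimit.w (A1_F R) (homOfLE hle)
  · obtain ⟨i, xi, hx⟩ := Scheme.IsLocallyDirected.ι_jointly_surjective (A1_F R) x
    exact ⟨i.1, i.2, xi, hx⟩
  · obtain ⟨u, fi, fj, z, hz, hz'⟩ := (Scheme.IsLocallyDirected.ι_eq_ι_iff (A1_F R)).1 hxy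
    exact ⟨u.1, u.2, leOfHom fi, leOfHom fj, z, hz, hz'⟩

theorem A1_isPullback {X : Scheme.{u}} {S T : Subalgebra R₀ K} (cS : SpecS S ⟶ X)
    (cT : SpecS T ⟶ X) [IsOpenImmersion cS] [IsOpenImmersion cT]
    [IsOpenImmersion (specIncl (le_sup_left : S ≤ S ⊔ T))]
    (hc : specIncl (le_sup_left : S ≤ S ⊔ T) ≫ cS = specIncl (le_sup_right : T ≤ S ⊔ T) ≫ cT)
    (hz : ∀ x y, cS x = cT y → ∃ z : SpecS (S ⊔ T),
      specIncl (le_sup_left : S ≤ S ⊔ T) z = x ∧ specIncl (le_sup_right : T ≤ S ⊔ T) z = y) :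
    IsPullback (specIncl (le_sup_right : T ≤ S ⊔ T)) (specIncl (le_sup_left : S ≤ S ⊔ T)) cT cS := by
  apply IsOpenImmersion.isPullback _ _ _ _ hc
  ext x
  constructor
  · rintro ⟨y, hy⟩
    obtain ⟨z, hz1, -⟩ := hz x y hy.symm
    exact ⟨z, hz1⟩
  · rintro ⟨z, rfl⟩
    refine ⟨specIncl (le_sup_right : T ≤ S ⊔ T) z, ?_⟩
    rw [← Scheme.Hom.comp_apply, ← hc, Scheme.Hom.comp_apply]

/-- The map from the tensor product. -/
noncomputable def A1_tensor (S T : Subalgebra R₀ K) : TensorProduct R₀ S T →ₐ[R₀] ↥(S ⊔ T) :=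
  Algebra.TensorProduct.lift (Subalgebra.inclusion (le_sup_left : S ≤ S ⊔ T))
      (Subalgebra.inclusion (le_sup_right : T ≤ S ⊔ T)) (fun _ _ ↦ .all _ _)

/-- The map from the tensor product is surjective. -/
theorem A1_tensor_surj (S T : Subalgebra R₀ K) : Function.Surjective (A1_tensor S T) := by
  have h1 : S ⊔ T ≤ ((S ⊔ T).val.comp (A1_tensor S T)).range := by
    refine sup_le ?_ ?_
    · intro x hx
      refine ⟨(⟨x, hx⟩ : S) ⊗ₜ 1, ?_⟩
      simp [A1_tensor]
    · intro x hx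
      refine ⟨1 ⊗ₜ (⟨x, hx⟩ : T), ?_⟩
      simp [A1_tensor]
  rintro ⟨z, hz⟩
  obtain ⟨y, hy⟩ := h1 hz
  exact ⟨y, Subtype.ext hy⟩

set_option backward.isDefEq.respectTransparency false in
theorem A1_separated {X : Scheme.{u}} (f : X ⟶ Spec (CommRingCat.of R₀)) (R : ι → Subalgebra R₀ K)
    (c : ∀ i, SpecS (R i) ⟶ X) (hc : ∀ i, IsOpenImmersion (c i))
    (hf : ∀ i, c i ≫ f = specBase (R i)) (hcov : ∀ x : X, ∃ i y, c i y = x)
    (hp : ∀ i j, IsPullback (specIncl (le_sup_left : R i ≤ R i ⊔ R j))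
      (specIncl (le_sup_right : R j ≤ R i ⊔ R j)) (c i) (c j)) : IsSeparated f := by
  let 𝒰 : X.OpenCover := Scheme.Cover.mkOfCovers ι (fun i ↦ SpecS (R i)) c hcov hc
  refine ⟨IsZariskiLocalAtTarget.of_openCover
    (Scheme.Pullback.openCoverOfLeftRight 𝒰 𝒰 _ _) ?_⟩
  intro ⟨i, j⟩
  dsimp [Scheme, Scheme.Cover.pullbackHom]
  refine (MorphismProperty.cancel_left_of_respectsIso (P := @IsClosedImmersion)
    (f := (pullbackDiagonalMapIdIso (c i) (c j) f).inv) _).mp ?_
  let e₁ : pullback (c i ≫ f) (c j ≫ f) ≅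
        Spec (.of <| TensorProduct R₀ (R i) (R j)) :=
    pullback.congrHom (hf i) (hf j) ≪≫ pullbackSpecIso R₀ (R i) (R j)
  let e₂ : pullback (c i) (c j) ≅ SpecS (R i ⊔ R j) := (hp i j).isoPullback.symm
  rw [← MorphismProperty.cancel_right_of_respectsIso (P := @IsClosedImmersion) _ e₁.hom,
    ← MorphismProperty.cancel_left_of_respectsIso (P := @IsClosedImmersion) e₂.inv]
  have := A1_tensor_surj (R i) (R j)
  convert!
    IsClosedImmersion.spec_of_surjective
      (CommRingCat.ofHom (A1_tensor (R i) (R j)).toRingHom) this using 1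
  rw [← cancel_mono (pullbackSpecIso ..).inv]
  apply pullback.hom_ext
  · simp only [Iso.trans_hom, pullback.congrHom_hom, Category.assoc, Iso.hom_inv_id,
      Category.comp_id, limit.lift_π, PullbackCone.mk_π_app, e₁, pullbackSpecIso_inv_fst,
      ← Spec.map_comp]
    erw [pullbackDiagonalMapIdIso_inv_snd_fst]
    have e3 : e₂.inv ≫ pullback.fst (c i) (c j) =
        specIncl (le_sup_left : R i ≤ R i ⊔ R j) := (hp i j).isoPullback_hom_fst
    rw [e3, specIncl]
    congr 1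
    ext x
    change (x : K) = ((A1_tensor (R i) (R j) (x ⊗ₜ 1) : ↥(R i ⊔ R j)) : K)
    simp [A1_tensor]
  · simp only [Iso.trans_hom, pullback.congrHom_hom, Category.assoc, Iso.hom_inv_id,
      Category.comp_id, limit.lift_π, PullbackCone.mk_π_app, e₁, pullbackSpecIso_inv_snd,
      ← Spec.map_comp]
    erw [pullbackDiagonalMapIdIso_inv_snd_snd]
    have e3 : e₂.inv ≫ pullback.snd (c i) (c j) =
        specIncl (le_sup_right : R j ≤ R i ⊔ R j) := (hp i j).isoPullback_hom_snd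
    rw [e3, specIncl]
    congr 1
    ext x
    change (x : K) = ((A1_tensor (R i) (R j) (1 ⊗ₜ x) : ↥(R i ⊔ R j)) : K)
    simp [A1_tensor]

end Construct

/-- AT1.  Proof: the diagram of the `Spec` of the rings `⨆ i ∈ s, R i`, `s` a nonempty finite
subset of `ι` (order reversed), consists of open immersions and is locally directed; the colimit
exists by `AlgebraicGeometry.Scheme.IsLocallyDirected`.  Separated: as in Mathlib for `Proj`. -/
theorem exists_atlas {R : ι → Subalgebra R₀ K} (h : GlueCond R) :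
    ∃ X : Over (Spec (CommRingCat.of R₀)), Nonempty (Atlas R X) := by
  classical
  obtain ⟨X, f, c, hc, hcf, hcc, hcov, hpt⟩ := A1_exists h
  have hS : ∀ i, A1_RS R {i} = R i := A1_RS_singleton R
  have hne : ∀ i : ι, ({i} : Finset ι).Nonempty := fun i ↦ Finset.singleton_nonempty i
  let d : ∀ i, SpecS (R i) ⟶ X := fun i ↦ specIncl (hS i).le ≫ c {i} (hne i)
  have hd : ∀ i, IsOpenImmersion (d i) := fun i ↦ by
    have := A1_isIso (hS i)
    have := hc {i} (hne i)
    change IsOpenImmersion (specIncl (hS i).le ≫ c {i} (hne i))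
    infer_instance
  have hdf : ∀ i, d i ≫ f = specBase (R i) := fun i ↦ by
    change (specIncl (hS i).le ≫ c {i} (hne i)) ≫ f = _
    rw [Category.assoc, hcf, A1_specBase_comp]
  have hdcov : ∀ x : X, ∃ (i : ι) (y : SpecS (R i)), d i y = x := fun x ↦ by
    obtain ⟨s, hs, y, hy⟩ := hcov x
    obtain ⟨i, hi⟩ := hs
    have hle : R i ≤ A1_RS R s := Finset.le_sup hi
    refine ⟨i, specIncl hle y, ?_⟩
    change (specIncl (hS i).le ≫ c {i} (hne i)) (specIncl hle y) = x
    have hsub : ({i} : Finset ι) ⊆ s := Finset.singleton_subset_iff.2 hi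
    rw [← Scheme.Hom.comp_apply, ← Category.assoc, A1_specIncl_comp]
    rw [hcc s ⟨i, hi⟩ {i} (hne i) hsub, hy]
  have hdd : ∀ i j, specIncl (le_sup_left : R i ≤ R i ⊔ R j) ≫ d i =
      specIncl (le_sup_right : R j ≤ R i ⊔ R j) ≫ d j := fun i j ↦ by
    have hij : A1_RS R {i, j} = R i ⊔ R j := by
      rw [A1_RS, Finset.sup_insert, Finset.sup_singleton]
    have h1 : ({i} : Finset ι) ⊆ {i, j} := by simp
    have h2 : ({j} : Finset ι) ⊆ {i, j} := by simp
    have h3 := hcc {i, j} (Finset.insert_nonempty i {j}) {i} (hne i) h1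
    have h4 := hcc {i, j} (Finset.insert_nonempty i {j}) {j} (hne j) h2
    change specIncl _ ≫ specIncl (hS i).le ≫ c {i} (hne i) =
      specIncl _ ≫ specIncl (hS j).le ≫ c {j} (hne j)
    rw [← Category.assoc, ← Category.assoc, A1_specIncl_comp, A1_specIncl_comp]
    have h5 := congrArg (fun q ↦ specIncl hij.le ≫ q) (h3.trans h4.symm)
    simp only [← Category.assoc, A1_specIncl_comp] at h5
    exact h5
  have hdp : ∀ i j x y, d i x = d j y → ∃ z : SpecS (R i ⊔ R j),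
      specIncl (le_sup_left : R i ≤ R i ⊔ R j) z = x ∧
      specIncl (le_sup_right : R j ≤ R i ⊔ R j) z = y := fun i j x y hxy ↦ by
    have hxy' : c {i} (hne i) (specIncl (hS i).le x) = c {j} (hne j) (specIncl (hS j).le y) := by
      rw [← Scheme.Hom.comp_apply, ← Scheme.Hom.comp_apply]
      exact hxy
    obtain ⟨u, hu, hiu, hju, z, hz1, hz2⟩ := hpt _ _ _ _ _ _ hxy'
    have hi : R i ≤ A1_RS R u := (hS i).ge.trans (A1_RS_mono R hiu)
    have hj : R j ≤ A1_RS R u := (hS j).ge.trans (A1_RS_mono R hju)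
    have i1 := A1_isIso (hS i)
    have i2 := A1_isIso (hS j)
    refine ⟨specIncl (sup_le hi hj) z, ?_, ?_⟩
    · apply (specIncl (hS i).le).isOpenEmbedding.injective
      rw [← hz1, ← Scheme.Hom.comp_apply, ← Scheme.Hom.comp_apply, A1_specIncl_comp,
        A1_specIncl_comp]
    · apply (specIncl (hS j).le).isOpenEmbedding.injective
      rw [← hz2, ← Scheme.Hom.comp_apply, ← Scheme.Hom.comp_apply, A1_specIncl_comp,
        A1_specIncl_comp]
  have hpb : ∀ i j, IsPullback (specIncl (le_sup_left : R i ≤ R i ⊔ R j))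
      (specIncl (le_sup_right : R j ≤ R i ⊔ R j)) (d i) (d j) := fun i j ↦ by
    obtain ⟨g, hg, hg0, hgs⟩ := h.loc i j
    have := (A1_openImm hg hg0 le_sup_left hgs).1
    have := hd i
    have := hd j
    exact (A1_isPullback (d i) (d j) (hdd i j) (hdp i j)).flip
  refine ⟨Over.mk f, ⟨{
    c := d
    isOpen := hd
    base := hdf
    cover := hdcov
    compat := fun i j ↦ ?_
    separated := A1_separated f R d hd hdf hdcov hpb }⟩⟩
  have h5 := congrArg (fun q ↦ specGen (R i ⊔ R j) ≫ q) (hdd i j)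
  simp only [← Category.assoc, A1_specGen_comp] at h5
  exact h5

end H1F
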