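import Pool.Agent.Lib.H1F.Defs
import Pool.Agent.Lib.H1F.FLIP.F2

/-!
# H1F, part AT, chunk A2

Morphisms and intersections.
-/

open CategoryTheory CategoryTheory.Limits AlgebraicGeometry Order

universe u

namespace H1F

variable {R₀ : Type u} [CommRing R₀] {K : Type u} [Field K] [Algebra R₀ K]
  {ι κ : Type} [Finite ι] [Nonempty ι] [Finite κ] [Nonempty κ]

/-- The generic point of the intersection of two charts. -/
theorem A2_exists_gen {R : ι → Subalgebra R₀ K} {X : Over (Spec (CommRingCat.of R₀))}
    (a : Atlas R X) (i j : ι) :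
    ∃ γ : Spec (CommRingCat.of K) ⟶ pullback (a.c i) (a.c j), IsDominant γ ∧
      γ ≫ pullback.fst _ _ = specGen (R i) ∧ γ ≫ pullback.snd _ _ = specGen (R j) := by
  have := a.isOpen i
  have := a.isOpen j
  refine ⟨pullback.lift (specGen (R i)) (specGen (R j)) (a.compat i j), ?_,
    pullback.lift_fst _ _ _, pullback.lift_snd _ _ _⟩
  have h : IsDominant (pullback.lift (specGen (R i)) (specGen (R j)) (a.compat i j) ≫
      pullback.fst (a.c i) (a.c j)) := by
    rw [pullback.lift_fst]
    exact FLIP.isDominant_specGen (R i)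
  exact IsDominant.of_comp_of_isOpenImmersion _ (pullback.fst (a.c i) (a.c j))

/-- The intersection of two charts is integral. -/
theorem A2_isIntegral {R : ι → Subalgebra R₀ K} {X : Over (Spec (CommRingCat.of R₀))}
    (a : Atlas R X) (i j : ι) : IsIntegral (pullback (a.c i) (a.c j)) := by
  have := a.isOpen i
  have := a.isOpen j
  obtain ⟨γ, hγ, -, -⟩ := A2_exists_gen a i j
  have : Nonempty (Spec (CommRingCat.of K)) := inferInstance
  have : Nonempty (pullback (a.c i) (a.c j) : Scheme.{u}) := ⟨γ this.some⟩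
  exact isIntegral_of_isOpenImmersion (pullback.fst (a.c i) (a.c j))

/-- AT2.  Morphisms: `S (φ i) ≤ R i`.  Glue the morphisms `specIncl _ ≫ b.c j` with
`Scheme.Cover.glueMorphisms` on the cover `FLIP.cover a`; they agree on the fibre products of the
charts: the fibre product is an open subscheme of the integral scheme `Spec (R i)`, the two
morphisms agree on the generic point (`compat`) and the target is separated
(`ext_of_isDominant_of_isSeparated`, compare `FLIP.glue`). -/
theorem Atlas.exists_hom {R : ι → Subalgebra R₀ K} {S : κ → Subalgebra R₀ K}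
    {X Y : Over (Spec (CommRingCat.of R₀))} (a : Atlas R X) (b : Atlas S Y)
    (h : ∀ i, ∃ j, S j ≤ R i) :
    ∃ f : X ⟶ Y, ∀ i j (hij : S j ≤ R i), a.c i ≫ f.left = specIncl hij ≫ b.c j := by
  choose φ hφ using h
  have hsep := b.separated
  have hb : ∀ i, specIncl (hφ i) ≫ b.c (φ i) ≫ Y.hom = a.c i ≫ X.hom := fun i ↦ by
    rw [a.base, b.base, specBase, specBase, specIncl, ← Spec.map_comp,
      ← CommRingCat.ofHom_comp]
    rfl
  have hg : ∀ i j (hij : S j ≤ R i), specGen (R i) ≫ specIncl hij = specGen (S j) :=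
    fun i j hij ↦ by
      rw [specGen, specIncl, ← Spec.map_comp, ← CommRingCat.ofHom_comp]
      rfl
  have hcomp : ∀ i j : ι, pullback.fst (a.c i) (a.c j) ≫ specIncl (hφ i) ≫ b.c (φ i) =
      pullback.snd (a.c i) (a.c j) ≫ specIncl (hφ j) ≫ b.c (φ j) := fun i j ↦ by
    obtain ⟨γ, hγ, h1, h2⟩ := A2_exists_gen a i j
    have := A2_isIntegral a i j
    refine ext_of_isDominant_of_isSeparated Y.hom ?_ γ ?_
    · simp only [Category.assoc]
      rw [hb, hb, ← Category.assoc, ← Category.assoc, pullback.condition]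
    · simp only [← Category.assoc]
      rw [h1, h2, hg, hg, b.compat]
  let f : X.left ⟶ Y.left := (FLIP.cover a).glueMorphisms
    (fun i ↦ specIncl (hφ i) ≫ b.c (φ i)) hcomp
  have hf : ∀ i, a.c i ≫ f = specIncl (hφ i) ≫ b.c (φ i) := fun i ↦
    (FLIP.cover a).ι_glueMorphisms _ hcomp i
  have hw : f ≫ Y.hom = X.hom := by
    have h1 : ∀ i, a.c i ≫ f ≫ Y.hom = a.c i ≫ X.hom := fun i ↦ by
      rw [← Category.assoc, hf, Category.assoc, hb]
    exact (FLIP.cover a).hom_ext _ _ h1
  refine ⟨Over.homMk f hw, fun i j hij ↦ ?_⟩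
  exact (hf i).trans (FLIP.glue b (φ i) j (R i) (hφ i) hij)

/-- The local rings of an integral scheme with generic point `γ : Spec K ⟶ W` are subrings of
`K`. -/
theorem A2_stalk {W : Scheme.{u}} [IsIntegral W] (γ : Spec (CommRingCat.of K) ⟶ W)
    [IsDominant γ] (w : W) : ∃ κ : W.presheaf.stalk w ⟶ CommRingCat.of K,
      Function.Injective κ.hom ∧ Spec.map κ ≫ W.fromSpecStalk w = γ := by
  let pt : Spec (CommRingCat.of K) := IsLocalRing.closedPoint K
  have hd : closure {γ pt} = Set.univ := by
    have h1 : Set.range γ = {γ pt} := by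
      ext x
      constructor
      · rintro ⟨z, rfl⟩
        have : z = pt := Subsingleton.elim (α := PrimeSpectrum K) _ _
        rw [this]
        rfl
      · rintro rfl
        exact ⟨pt, rfl⟩
    rw [← h1]
    exact γ.denseRange.closure_range
  have hs : γ pt ⤳ genericPoint W := by
    rw [specializes_iff_mem_closure, hd]
    trivial
  have hg : genericPoint W ⤳ w := (genericPoint_spec W).specializes trivial
  refine ⟨W.presheaf.stalkSpecializes hg ≫ W.presheaf.stalkSpecializes hs ≫
    Scheme.stalkClosedPointTo γ, ?_, ?_⟩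
  · have h1 : Function.Injective (W.presheaf.stalkSpecializes hg).hom :=
      IsFractionRing.injective (W.presheaf.stalk w) W.functionField
    let ψ : W.functionField →+* K :=
      (W.presheaf.stalkSpecializes hs ≫ Scheme.stalkClosedPointTo γ).hom
    have h2 : Function.Injective ψ := ψ.injective
    exact h2.comp h1
  · rw [Spec.map_comp, Spec.map_comp, Category.assoc, Category.assoc,
      Scheme.SpecMap_stalkSpecializes_fromSpecStalk,
      Scheme.SpecMap_stalkSpecializes_fromSpecStalk]
    exact Scheme.Spec_stalkClosedPointTo_fromSpecStalk γ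

/-- AT3.  The intersection of two charts.  Proof: the point `x = c i y = c j y'` lies in both open
sets; `X` is separated and integral, so the intersection of the two affine open sets is affine and
its ring is generated by `R i` and `R j`: the morphism `Spec (R i ⊔ R j) → U i ∩ U j` is an open
immersion ... More elementary: take the local ring `L` of `X` at `x` (a subring of `K`) and the
morphism `Spec L → X`; it factors through both charts, so `R i ≤ L`, `R j ≤ L`, and
`R i ⊔ R j ≤ L`; take the contraction of the maximal ideal of `L`.  (Compare FLIP.Loc.) -/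
theorem Atlas.inter {R : ι → Subalgebra R₀ K} {X : Over (Spec (CommRingCat.of R₀))}
    (a : Atlas R X) (i j : ι) (y : SpecS (R i)) (y' : SpecS (R j)) :
    a.c i y = a.c j y' ↔ ∃ z : SpecS (R i ⊔ R j),
      specIncl (le_sup_left : R i ≤ R i ⊔ R j) z = y ∧
      specIncl (le_sup_right : R j ≤ R i ⊔ R j) z = y' := by
  constructor
  · intro h
    obtain ⟨w, hw1, hw2⟩ := Scheme.Pullback.exists_preimage_pullback y y' h
    obtain ⟨γ, hγ, h1, h2⟩ := A2_exists_gen a i j
    have := A2_isIntegral a i j
    obtain ⟨κ, hκ, hκγ⟩ := A2_stalk γ w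
    let W := pullback (a.c i) (a.c j)
    let α := Spec.preimage (W.fromSpecStalk w ≫ pullback.fst (a.c i) (a.c j))
    let β := Spec.preimage (W.fromSpecStalk w ≫ pullback.snd (a.c i) (a.c j))
    have hα : Spec.map α = W.fromSpecStalk w ≫ pullback.fst (a.c i) (a.c j) :=
      Spec.map_preimage _
    have hβ : Spec.map β = W.fromSpecStalk w ≫ pullback.snd (a.c i) (a.c j) :=
      Spec.map_preimage _
    have hακ : α ≫ κ = CommRingCat.ofHom (R i).val.toRingHom := by
      apply Spec.map_injective
      rw [Spec.map_comp, hα, ← Category.assoc, hκγ, h1]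
    have hβκ : β ≫ κ = CommRingCat.ofHom (R j).val.toRingHom := by
      apply Spec.map_injective
      rw [Spec.map_comp, hβ, ← Category.assoc, hκγ, h2]
    have hα' : ∀ r : R i, κ.hom (α.hom r) = r := fun r ↦ congrArg (fun q ↦ q.hom r) hακ
    have hβ' : ∀ r : R j, κ.hom (β.hom r) = r := fun r ↦ congrArg (fun q ↦ q.hom r) hβκ
    let T : Subalgebra R₀ K := { κ.hom.range with
      algebraMap_mem' := fun r ↦ ⟨α.hom (algebraMap R₀ (R i) r), hα' _⟩ }
    have hT : R i ⊔ R j ≤ T := by
      refine sup_le (fun r hr ↦ ?_) (fun r hr ↦ ?_)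
      · exact ⟨α.hom ⟨r, hr⟩, hα' _⟩
      · exact ⟨β.hom ⟨r, hr⟩, hβ' _⟩
    let e : W.presheaf.stalk w ≃+* κ.hom.range := RingEquiv.ofBijective κ.hom.rangeRestrict
      ⟨fun x y h ↦ hκ (congrArg Subtype.val h), κ.hom.rangeRestrict_surjective⟩
    let θ : ↥(R i ⊔ R j) →+* W.presheaf.stalk w := e.symm.toRingHom.comp
      ((R i ⊔ R j).val.toRingHom.codRestrict κ.hom.range fun r ↦ hT r.2)
    have hθ : ∀ r : ↥(R i ⊔ R j), κ.hom (θ r) = r := fun r ↦
      congrArg Subtype.val (e.apply_symm_apply _)
    let Θ : CommRingCat.of ↥(R i ⊔ R j) ⟶ W.presheaf.stalk w := CommRingCat.ofHom θ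
    let c₀ : Spec (W.presheaf.stalk w) := IsLocalRing.closedPoint _
    have hc₀ : W.fromSpecStalk w c₀ = w := Scheme.fromSpecStalk_closedPoint
    refine ⟨Spec.map Θ c₀, ?_, ?_⟩
    · have e1 : Spec.map Θ ≫ specIncl (le_sup_left : R i ≤ R i ⊔ R j) =
          Spec.map α := by
        rw [specIncl, ← Spec.map_comp]
        congr 1
        ext r
        exact hκ ((hθ _).trans (hα' r).symm)
      rw [← Scheme.Hom.comp_apply, e1, hα, Scheme.Hom.comp_apply, hc₀, hw1]
    · have e1 : Spec.map Θ ≫ specIncl (le_sup_right : R j ≤ R i ⊔ R j) =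
          Spec.map β := by
        rw [specIncl, ← Spec.map_comp]
        congr 1
        ext r
        exact hκ ((hθ _).trans (hβ' r).symm)
      rw [← Scheme.Hom.comp_apply, e1, hβ, Scheme.Hom.comp_apply, hc₀, hw2]
  · rintro ⟨z, rfl, rfl⟩
    rw [← Scheme.Hom.comp_apply, ← Scheme.Hom.comp_apply,
      FLIP.glue a i j _ le_sup_left le_sup_right]

end H1F
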