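import Pool.Agent.Lib.H1F.Defs
import Pool.Agent.Lib.H1F.FLIP.F2
import Pool.Agent.Lib.H1F.AT.A2

/-!
# H1F, part AT, chunk A3

Function field of a glued scheme.
-/

open CategoryTheory CategoryTheory.Limits AlgebraicGeometry Order

universe u

namespace H1F

variable {k : Type u} [Field k] {K : Type u} [Field K] [Algebra k K]
  {ι κ : Type} [Finite ι] [Nonempty ι] [Finite κ] [Nonempty κ] {R : ι → Subalgebra k K}
  {X : Over (Spec (CommRingCat.of k))}

/-- The generic point of a glued scheme is dense. -/
theorem A3_isDominant (a : Atlas R X) (i : ι) : IsDominant (specGen (R i) ≫ a.c i) := by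
  constructor
  rw [DenseRange, dense_iff_inter_open]
  rintro U hU ⟨x, hx⟩
  obtain ⟨j, y, rfl⟩ := a.cover x
  have h1 : ((a.c j) ⁻¹' U).Nonempty := ⟨y, hx⟩
  have h2 : IsOpen ((a.c j) ⁻¹' U) := hU.preimage (a.c j).continuous
  obtain ⟨z, hz, t, ht⟩ := dense_iff_inter_open.1 (FLIP.isDominant_specGen (R j)).denseRange _ h2 h1
  refine ⟨a.c j z, hz, t, ?_⟩
  rw [a.compat i j, Scheme.Hom.comp_apply, ht]

/-- AT4.  A glued scheme is integral: it is covered by integral open subschemes with the common
generic point. -/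
theorem Atlas.isIntegral (a : Atlas R X) (h : ∀ i, IsFractionRing (R i) K) :
    IsIntegral X.left := by
  have hr : IsReduced X.left := by
    have : ∀ i, IsReduced ((FLIP.cover a).X i) := fun i ↦
      inferInstanceAs (IsReduced (SpecS (R i)))
    exact IsReduced.of_openCover _ (FLIP.cover a)
  obtain ⟨i⟩ := (inferInstance : Nonempty ι)
  let γ := specGen (R i) ≫ a.c i
  have hd : IsDominant γ := A3_isDominant a i
  let pt : Spec (CommRingCat.of K) := IsLocalRing.closedPoint K
  have hcl : closure {γ pt} = Set.univ := by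
    have h1 : Set.range γ = {γ pt} := by
      ext x
      constructor
      · rintro ⟨z, rfl⟩
        have : z = pt := Subsingleton.elim (α := PrimeSpectrum K) _ _
        rw [this]
        rfl
      · rintro rfl
        exact ⟨pt, rfl⟩
    rw [← h1]
    exact γ.denseRange.closure_range
  have hirr : IrreducibleSpace X.left := by
    have h2 : IsIrreducible (Set.univ : Set X.left) := by
      rw [← hcl]
      exact isIrreducible_singleton.closure
    have : PreirreducibleSpace X.left := ⟨h2.isPreirreducible⟩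
    exact { toNonempty := ⟨γ pt⟩ }
  exact isIntegral_of_irreducibleSpace_of_isReduced X.left

/-- The isomorphism `e` of the function field with `K` is the canonical one. -/
def Atlas.IsFF (a : Atlas R X) [IsIntegral X.left] (e : X.left.functionField ≃ₐ[k] K) : Prop :=
  ∀ i, Spec.map (CommRingCat.ofHom (e : X.left.functionField →+* K)) ≫
    X.left.fromSpecStalk (genericPoint X.left) = specGen (R i) ≫ a.c i

/-- The structure morphism on the local rings. -/
theorem A3_fromSpecStalk {A : Type u} [CommRing A] {Y : Scheme.{u}} (x : Y)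
    (f : Y ⟶ Spec (CommRingCat.of A)) : Y.fromSpecStalk x ≫ f =
      Spec.map ((Scheme.ΓSpecIso (CommRingCat.of A)).inv ≫ f.appTop ≫
        Y.presheaf.germ ⊤ x trivial) := by
  have h1 : (Y.fromSpecStalk x ≫ f) ≫ (Spec (CommRingCat.of A)).toSpecΓ =
      Spec.map (f.appTop ≫ Y.presheaf.germ ⊤ x trivial) := by
    rw [Category.assoc, Scheme.toSpecΓ_naturality, ← Category.assoc,
      Scheme.fromSpecStalk_toSpecΓ, ← Spec.map_comp]
  rw [Spec.map_comp, ← h1, Category.assoc, toSpecΓ_SpecMap_ΓSpecIso_inv, Category.comp_id]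

/-- AT5. -/
theorem Atlas.exists_isFF (a : Atlas R X) [IsIntegral X.left] (h : ∀ i, IsFractionRing (R i) K) :
    ∃ e : X.left.functionField ≃ₐ[k] K, a.IsFF e := by
  obtain ⟨i⟩ := (inferInstance : Nonempty ι)
  have hd : IsDominant (specGen (R i) ≫ a.c i) := A3_isDominant a i
  obtain ⟨φ, hφ, hφγ⟩ := A2_stalk (specGen (R i) ≫ a.c i) (genericPoint X.left)
  have hopen := a.isOpen i
  have hgen : genericPoint X.left ∈ Set.range (a.c i) :=
    ⟨genericPoint (SpecS (R i)), genericPoint_eq_of_isOpenImmersion (a.c i)⟩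
  have hrange : Set.range (X.left.fromSpecStalk (genericPoint X.left)) ⊆ Set.range (a.c i) := by
    rw [Scheme.range_fromSpecStalk]
    intro y hy
    exact Specializes.mem_open hy (a.c i).isOpenEmbedding.isOpen_range hgen
  let δ := IsOpenImmersion.lift (a.c i) (X.left.fromSpecStalk (genericPoint X.left)) hrange
  have hδ : δ ≫ a.c i = X.left.fromSpecStalk (genericPoint X.left) :=
    IsOpenImmersion.lift_fac _ _ _
  have hφδ : Spec.map φ ≫ δ = specGen (R i) := by
    rw [← cancel_mono (a.c i), Category.assoc, hδ, hφγ]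
  have hδ' : Spec.preimage δ ≫ φ = CommRingCat.ofHom (R i).val.toRingHom := by
    apply Spec.map_injective
    rw [Spec.map_comp, Spec.map_preimage, hφδ]
  have hval : ∀ r : R i, φ.hom ((Spec.preimage δ).hom r) = r :=
    fun r ↦ congrArg (fun q ↦ q.hom r) hδ'
  let ψ : X.left.functionField →+* K := φ.hom
  have hψ : Function.Bijective ψ := by
    refine ⟨hφ, fun x ↦ ?_⟩
    have := h i
    obtain ⟨r, s, -, rfl⟩ := IsFractionRing.div_surjective (A := R i) x
    let r' : X.left.functionField := (Spec.preimage δ).hom r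
    let s' : X.left.functionField := (Spec.preimage δ).hom s
    refine ⟨r' / s', ?_⟩
    rw [map_div₀]
    exact congrArg₂ (fun x y : K ↦ x / y) (hval r) (hval s)
  have hbase : ((Scheme.ΓSpecIso (CommRingCat.of k)).inv ≫ X.hom.appTop ≫
      X.left.presheaf.germ ⊤ (genericPoint X.left) trivial) ≫ φ =
        CommRingCat.ofHom (algebraMap k K) := by
    apply Spec.map_injective
    rw [Spec.map_comp, ← A3_fromSpecStalk, ← Category.assoc, hφγ, Category.assoc, a.base,
      ← Spec.map_comp, ← CommRingCat.ofHom_comp]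
    rfl
  let e : X.left.functionField ≃ₐ[k] K := AlgEquiv.ofRingEquiv (f := RingEquiv.ofBijective ψ hψ)
    fun c ↦ congrArg (fun q ↦ q.hom c) hbase
  refine ⟨e, fun j ↦ ?_⟩
  rw [a.compat j i]
  exact hφγ

/-- AT5u. -/
theorem Atlas.IsFF.unique (a : Atlas R X) [IsIntegral X.left]
    {e e' : X.left.functionField ≃ₐ[k] K} (h : a.IsFF e) (h' : a.IsFF e') : e = e' := by
  obtain ⟨i⟩ := (inferInstance : Nonempty ι)
  have h1 := (h i).trans (h' i).symm
  rw [cancel_mono] at h1
  have h2 := Spec.map_injective h1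
  ext x
  exact congrArg (fun q ↦ q.hom x) h2

end H1F
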