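import Pool.Agent.Lib.H1F.Defs

/-!
# H1F, part AT, chunk A4

The local ring as the range of the stalk.
-/

open CategoryTheory CategoryTheory.Limits AlgebraicGeometry Order

universe u

namespace H1F

variable {k : Type u} [Field k]

/-- The image of `k` in the function field comes from the stalk. -/
theorem A4_algebraMap (X : Over (Spec (CommRingCat.of k))) [IsIntegral X.left] (x : X.left)
    (c : k) : ∃ s : X.left.presheaf.stalk x,
      algebraMap (X.left.presheaf.stalk x) X.left.functionField s =
        algebraMap k X.left.functionField c := by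
  have : Nonempty (⊤ : X.left.Opens) := ⟨⟨x, trivial⟩⟩
  refine ⟨X.left.presheaf.germ ⊤ x trivial
    (X.hom.appTop.hom ((Scheme.ΓSpecIso (CommRingCat.of k)).inv.hom c)), ?_⟩
  exact Scheme.algebraMap_germ_eq_germToFunctionField X.left (U := ⊤) (x := x) trivial _

/-- AT6.  `localRing` is the range of the stalk (the range contains the image of `k`). -/
theorem mem_localRing (X : Over (Spec (CommRingCat.of k))) [IsIntegral X.left] (x : X.left)
    (f : X.left.functionField) :
    f ∈ localRing k X x ↔ ∃ s : X.left.presheaf.stalk x, algebraMap _ _ s = f := by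
  constructor
  · intro hf
    let T : Subalgebra k X.left.functionField :=
      { (algebraMap (X.left.presheaf.stalk x) X.left.functionField).range with
        algebraMap_mem' := fun c ↦ A4_algebraMap X x c }
    have hT : localRing k X x ≤ T := Algebra.adjoin_le (by
      rintro _ ⟨s, rfl⟩
      exact ⟨s, rfl⟩)
    exact hT hf
  · rintro ⟨s, rfl⟩
    exact Algebra.subset_adjoin ⟨s, rfl⟩

/-- The local ring is isomorphic to the stalk. -/
theorem exists_localRing_equiv (X : Over (Spec (CommRingCat.of k))) [IsIntegral X.left]
    (x : X.left) : ∃ e : X.left.presheaf.stalk x ≃+* localRing k X x,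
      ∀ s, ((e s : localRing k X x) : X.left.functionField) = algebraMap _ _ s := by
  let f : X.left.presheaf.stalk x →+* localRing k X x :=
    (algebraMap (X.left.presheaf.stalk x) X.left.functionField).codRestrict (localRing k X x)
      fun s ↦ (mem_localRing X x _).2 ⟨s, rfl⟩
  refine ⟨RingEquiv.ofBijective f ⟨fun s t h ↦ ?_, fun y ↦ ?_⟩, fun s ↦ rfl⟩
  · exact IsFractionRing.injective (X.left.presheaf.stalk x) X.left.functionField
      (congrArg Subtype.val h)
  · obtain ⟨s, hs⟩ := (mem_localRing X x _).1 y.2
    exact ⟨s, Subtype.ext hs⟩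

theorem isLocalRing_localRing (X : Over (Spec (CommRingCat.of k))) [IsIntegral X.left]
    (x : X.left) : IsLocalRing (localRing k X x) := by
  obtain ⟨e, -⟩ := exists_localRing_equiv X x
  exact e.isLocalRing

theorem isFractionRing_localRing (X : Over (Spec (CommRingCat.of k))) [IsIntegral X.left]
    (x : X.left) : IsFractionRing (localRing k X x) X.left.functionField := by
  refine IsFractionRing.of_field _ _ fun z ↦ ?_
  obtain ⟨r, s, -, rfl⟩ := IsFractionRing.div_surjective (A := X.left.presheaf.stalk x) z
  exact ⟨⟨_, (mem_localRing X x _).2 ⟨r, rfl⟩⟩, ⟨_, (mem_localRing X x _).2 ⟨s, rfl⟩⟩, rfl⟩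

/-- Specialization gives an inclusion. -/
theorem localRing_le_of_specializes (X : Over (Spec (CommRingCat.of k))) [IsIntegral X.left]
    {x y : X.left} (h : x ⤳ y) : localRing k X y ≤ localRing k X x := by
  intro f hf
  obtain ⟨s, rfl⟩ := (mem_localRing X y _).1 hf
  refine (mem_localRing X x _).2 ⟨(X.left.presheaf.stalkSpecializes h).hom s, ?_⟩
  have h1 : X.left.presheaf.stalkSpecializes h ≫ X.left.presheaf.stalkSpecializes
      ((genericPoint_spec X.left).specializes trivial) = X.left.presheaf.stalkSpecializes
      ((genericPoint_spec X.left).specializes trivial) :=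
    X.left.presheaf.stalkSpecializes_comp _ _
  exact congrArg (fun q ↦ q.hom s) h1

/-- Sections over `U` lie in the local rings at the points of `U`. -/
theorem germ_mem_localRing (X : Over (Spec (CommRingCat.of k))) [IsIntegral X.left]
    {x : X.left} (U : X.left.Opens) [Nonempty U] (hx : x ∈ U) (s : Γ(X.left, U)) :
    (X.left.germToFunctionField U).hom s ∈ localRing k X x :=
  (mem_localRing X x _).2 ⟨X.left.presheaf.germ U x hx s,
    Scheme.algebraMap_germ_eq_germToFunctionField X.left hx s⟩

end H1F
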