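import Pool.Agent.Lib.H1F.AT.A3
import Pool.Agent.Lib.H1F.AT.A4

/-!
# H1F, part AT, chunk A5

Charts with subrings of the function field.
-/

open CategoryTheory CategoryTheory.Limits AlgebraicGeometry Order

universe u

namespace H1F

variable {k : Type u} [Field k] {ι κ : Type} [Finite ι] [Nonempty ι] [Finite κ] [Nonempty κ]

/-- `X` is covered by the affine open sets `U i` with rings of functions `R i`. -/
structure Charts (X : Over (Spec (CommRingCat.of k))) [IsIntegral X.left]
    (U : ι → X.left.Opens) (R : ι → Subalgebra k X.left.functionField) : Prop where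
  separated : IsSeparated X.hom
  affine : ∀ i, IsAffineOpen (U i)
  nonempty : ∀ i, Nonempty (U i)
  cover : ∀ x, ∃ i, x ∈ U i
  range : ∀ i (f : X.left.functionField), f ∈ R i ↔ ∃ s : Γ(X.left, U i),
    (haveI := nonempty i; (X.left.germToFunctionField (U i)).hom s) = f

/-- The ring of functions of a chart of an atlas. -/
theorem A5_section {K : Type u} [Field K] {Y : Scheme.{u}} [IsIntegral Y] {A : Type u}
    [CommRing A] (c : Spec (CommRingCat.of A) ⟶ Y) [IsOpenImmersion c]
    [hne : Nonempty c.opensRange] (φ : A →+* K) (e : Y.functionField →+* K)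
    (h : Spec.map (CommRingCat.ofHom e) ≫ Y.fromSpecStalk (genericPoint Y) =
      Spec.map (CommRingCat.ofHom φ) ≫ c) :
    ∃ θ : Γ(Y, c.opensRange) ≃+* A, ∀ s : Γ(Y, c.opensRange),
      e ((Y.germToFunctionField c.opensRange).hom s) = φ (θ s) := by
  have hU : IsAffineOpen c.opensRange := isAffineOpen_opensRange c
  have hg : genericPoint Y ∈ c.opensRange := by
    obtain ⟨⟨x, hx⟩⟩ := hne
    exact ((genericPoint_spec Y).specializes trivial).mem_open c.opensRange.isOpen hx
  have hr : Set.range c = Set.range hU.fromSpec := by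
    rw [hU.range_fromSpec]
    rfl
  let θ := IsOpenImmersion.isoOfRangeEq c hU.fromSpec hr
  have hθ : θ.hom ≫ hU.fromSpec = c := IsOpenImmersion.isoOfRangeEq_hom_fac _ _ _
  let θ' : Γ(Y, c.opensRange) ⟶ CommRingCat.of A := Spec.preimage θ.hom
  have hθ' : Spec.map θ' = θ.hom := Spec.map_preimage _
  have hbij : Function.Bijective θ'.hom := by
    rw [← isIso_SpecMap_iff, hθ']
    infer_instance
  have hs : Y.fromSpecStalk (genericPoint Y) =
      Spec.map (Y.presheaf.germ c.opensRange (genericPoint Y) hg) ≫ hU.fromSpec :=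
    (hU.fromSpecStalk_eq_fromSpecStalk hg).symm
  have h0 := h.trans (congrArg (fun q ↦ Spec.map (CommRingCat.ofHom φ) ≫ q) hθ.symm)
  rw [hs, ← hθ', ← Category.assoc, ← Category.assoc, cancel_mono, ← Spec.map_comp,
    ← Spec.map_comp] at h0
  have h1 := Spec.map_injective h0
  exact ⟨RingEquiv.ofBijective θ'.hom hbij, fun s ↦ congrArg (fun q ↦ q.hom s) h1⟩

/-- AT5c. -/
theorem Atlas.charts {K : Type u} [Field K] [Algebra k K] {R : ι → Subalgebra k K}
    {X : Over (Spec (CommRingCat.of k))} [IsIntegral X.left] (a : Atlas R X)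
    (h : ∀ i, IsFractionRing (R i) K) {e : X.left.functionField ≃ₐ[k] K} (he : a.IsFF e) :
    Charts X (fun i ↦ (a.c i).opensRange (H := a.isOpen i)) (fun i ↦ (R i).comap e.toAlgHom) := by
  have hne : ∀ i, Nonempty ((a.c i).opensRange (H := a.isOpen i)) := fun i ↦ by
    have : Nonempty (SpecS (R i)) := inferInstance
    exact ⟨⟨a.c i this.some, this.some, rfl⟩⟩
  refine ⟨a.separated, fun i ↦ ?_, hne, fun x ↦ ?_, fun i f ↦ ?_⟩
  · have := a.isOpen i
    exact isAffineOpen_opensRange (a.c i)
  · obtain ⟨i, y, rfl⟩ := a.cover x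
    exact ⟨i, y, rfl⟩
  · have := a.isOpen i
    have := hne i
    obtain ⟨θ, hθ⟩ := A5_section (a.c i) (R i).val.toRingHom (e : X.left.functionField →+* K)
      (he i)
    constructor
    · intro hf
      refine ⟨θ.symm ⟨e f, hf⟩, ?_⟩
      apply e.injective
      refine (hθ _).trans ?_
      rw [RingEquiv.apply_symm_apply]
      rfl
    · rintro ⟨s, rfl⟩
      change e _ ∈ R i
      have h1 : e ((X.left.germToFunctionField ((a.c i).opensRange)).hom s) = (θ s : K) := hθ s
      rw [h1]
      exact (θ s).2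

/-- Units of the stalk in the function field. -/
theorem A5_isUnit (X : Over (Spec (CommRingCat.of k))) [IsIntegral X.left] (x : X.left)
    (t : X.left.presheaf.stalk x) : ¬ IsUnit t ↔
      (algebraMap (X.left.presheaf.stalk x) X.left.functionField t = 0 ∨
        (algebraMap (X.left.presheaf.stalk x) X.left.functionField t)⁻¹ ∉ localRing k X x) := by
  have hinj := IsFractionRing.injective (X.left.presheaf.stalk x) X.left.functionField
  rw [← not_and_or.trans (or_congr not_not Iff.rfl), not_iff_not]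
  constructor
  · intro ht
    obtain ⟨u, hu⟩ := ht.exists_right_inv
    have h1 : algebraMap (X.left.presheaf.stalk x) X.left.functionField t *
        algebraMap (X.left.presheaf.stalk x) X.left.functionField u = 1 := by
      rw [← map_mul, hu, map_one]
    refine ⟨left_ne_zero_of_mul_eq_one h1, ?_⟩
    rw [← eq_inv_of_mul_eq_one_right h1]
    exact (mem_localRing X x _).2 ⟨u, rfl⟩
  · rintro ⟨h1, h2⟩
    obtain ⟨u, hu⟩ := (mem_localRing X x _).1 h2
    refine IsUnit.of_mul_eq_one u (hinj ?_)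
    rw [map_mul, hu, mul_inv_cancel₀ h1, map_one]

variable {X : Over (Spec (CommRingCat.of k))} [IsIntegral X.left] {U : ι → X.left.Opens}
  {R : ι → Subalgebra k X.left.functionField}

/-- The ring of functions is isomorphic to the ring of the chart. -/
theorem A5_equiv (c : Charts X U R) (i : ι) : ∃ θ : Γ(X.left, U i) ≃+* R i,
    ∀ s, ((θ s : R i) : X.left.functionField) =
      (haveI := c.nonempty i; (X.left.germToFunctionField (U i)).hom s) := by
  have := c.nonempty i
  let f : Γ(X.left, U i) →+* R i := (X.left.germToFunctionField (U i)).hom.codRestrict (R i)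
    fun s ↦ (c.range i _).2 ⟨s, rfl⟩
  refine ⟨RingEquiv.ofBijective f ⟨fun s t h ↦ ?_, fun y ↦ ?_⟩, fun s ↦ rfl⟩
  · exact X.left.germToFunctionField_injective (U i) (congrArg Subtype.val h)
  · obtain ⟨s, hs⟩ := (c.range i _).1 y.2
    exact ⟨s, Subtype.ext hs⟩

/-- The chart as an open immersion. -/
theorem A5_exists_chart (c : Charts X U R) (i : ι) :
    ∃ j : Spec (CommRingCat.of (R i)) ⟶ X.left, IsOpenImmersion j ∧
      Set.range j = U i ∧ ∀ (z : Spec (CommRingCat.of (R i))) (a : R i),
        a ∈ PrimeSpectrum.asIdeal z ↔ ((a : X.left.functionField) = 0 ∨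
          (a : X.left.functionField)⁻¹ ∉ localRing k X (j z)) := by
  have hU := c.affine i
  have := c.nonempty i
  obtain ⟨θ, hθ⟩ := A5_equiv c i
  let Θ : Γ(X.left, U i) ⟶ CommRingCat.of (R i) := CommRingCat.ofHom θ.toRingHom
  have hiso : IsIso (Spec.map Θ) := isIso_SpecMap_iff.2 θ.bijective
  have hjo : IsOpenImmersion (Spec.map Θ ≫ hU.fromSpec) := inferInstance
  have hjr : Set.range (Spec.map Θ ≫ hU.fromSpec) = U i := by
    rw [← hU.range_fromSpec, Scheme.Hom.comp_base, TopCat.coe_comp, Set.range_comp]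
    have : Set.range (Spec.map Θ) = Set.univ := (Spec.map Θ).surjective.range_eq
    rw [this, Set.image_univ]
  refine ⟨Spec.map Θ ≫ hU.fromSpec, hjo, hjr, fun z a ↦ ?_⟩
  obtain ⟨s, rfl⟩ := θ.surjective a
  have hx : (Spec.map Θ ≫ hU.fromSpec) z ∈ U i := by
    have : (Spec.map Θ ≫ hU.fromSpec) z ∈ Set.range (Spec.map Θ ≫ hU.fromSpec) := ⟨z, rfl⟩
    rwa [hjr] at this
  let _ := X.left.presheaf.algebra_section_stalk ⟨_, hx⟩
  have hloc := hU.isLocalization_stalk ⟨_, hx⟩
  have hz : hU.primeIdealOf ⟨_, hx⟩ = Spec.map Θ z := by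
    apply hU.fromSpec.isOpenEmbedding.injective
    rw [hU.fromSpec_primeIdealOf]
    rfl
  have h1 : θ s ∈ PrimeSpectrum.asIdeal z ↔ s ∈ (hU.primeIdealOf ⟨_, hx⟩).asIdeal := by
    rw [hz]
    rfl
  have h2 : s ∈ (hU.primeIdealOf ⟨_, hx⟩).asIdeal ↔
      ¬ IsUnit (X.left.presheaf.germ (U i) _ hx s) := by
    have h3 := IsLocalization.AtPrime.isUnit_to_map_iff
      (X.left.presheaf.stalk ((Spec.map Θ ≫ hU.fromSpec) z))
      (hU.primeIdealOf ⟨_, hx⟩).asIdeal s
    rw [← not_iff_not, not_not]
    exact h3.symm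
  rw [h1, h2, A5_isUnit, Scheme.algebraMap_germ_eq_germToFunctionField, hθ]

theorem A5_le (c : Charts X U R) {i : ι} {x : X.left} (hx : x ∈ U i) : R i ≤ localRing k X x := by
  intro f hf
  have := c.nonempty i
  obtain ⟨s, rfl⟩ := (c.range i f).1 hf
  exact germ_mem_localRing X (U i) hx s

/-- AT7.  The local ring at a point of a chart is a localization. -/
theorem Charts.mem_localRing (c : Charts X U R) {i : ι} {x : X.left} (hx : x ∈ U i)
    (f : X.left.functionField) :
    f ∈ localRing k X x ↔ ∃ a ∈ R i, ∃ s ∈ R i, s ≠ 0 ∧ s⁻¹ ∈ localRing k X x ∧ f = a * s⁻¹ := by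
  constructor
  · intro hf
    obtain ⟨t, rfl⟩ := (H1F.mem_localRing X x f).1 hf
    have hU := c.affine i
    have := c.nonempty i
    let _ := X.left.presheaf.algebra_section_stalk ⟨x, hx⟩
    have hloc := hU.isLocalization_stalk ⟨x, hx⟩
    obtain ⟨a, s, hs⟩ := IsLocalization.exists_mk'_eq
      (hU.primeIdealOf ⟨x, hx⟩).asIdeal.primeCompl t
    have h1 : IsUnit (X.left.presheaf.germ (U i) x hx s) :=
      IsLocalization.map_units (X.left.presheaf.stalk x) s
    have h2 : t * X.left.presheaf.germ (U i) x hx s = X.left.presheaf.germ (U i) x hx a := by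
      rw [← hs]
      exact IsLocalization.mk'_spec _ _ _
    have h3 := mt (A5_isUnit X x _).2 (not_not.2 h1)
    rw [Scheme.algebraMap_germ_eq_germToFunctionField] at h3
    push Not at h3
    refine ⟨_, (c.range i _).2 ⟨a, rfl⟩, _, (c.range i _).2 ⟨s, rfl⟩, h3.1, h3.2, ?_⟩
    rw [eq_mul_inv_iff_mul_eq₀ h3.1]
    have h4 := congrArg (algebraMap (X.left.presheaf.stalk x) X.left.functionField) h2
    rw [map_mul, Scheme.algebraMap_germ_eq_germToFunctionField,
      Scheme.algebraMap_germ_eq_germToFunctionField] at h4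
    exact h4
  · rintro ⟨a, ha, s, -, -, hs, rfl⟩
    exact mul_mem (A5_le c hx ha) hs

/-- AT8.  Points of a chart are primes of its ring. -/
theorem Charts.exists_point (c : Charts X U R) (i : ι) (P : Ideal (R i)) [P.IsPrime] :
    ∃ x ∈ U i, ∀ a : R i, a ∈ P ↔ ((a : X.left.functionField) = 0 ∨
      (a : X.left.functionField)⁻¹ ∉ localRing k X x) := by
  obtain ⟨j, -, hj, hz⟩ := A5_exists_chart c i
  let z : Spec (CommRingCat.of (R i)) := (⟨P, inferInstance⟩ : PrimeSpectrum (R i))
  have hx : j z ∈ (U i : Set X.left) := by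
    rw [← hj]
    exact ⟨z, rfl⟩
  exact ⟨j z, hx, fun a ↦ hz z a⟩

/-- The prime of a point. -/
theorem Charts.exists_prime (c : Charts X U R) {i : ι} {x : X.left} (hx : x ∈ U i) :
    ∃ P : Ideal (R i), P.IsPrime ∧ (∀ a : R i, a ∈ P ↔ ((a : X.left.functionField) = 0 ∨
      (a : X.left.functionField)⁻¹ ∉ localRing k X x)) := by
  obtain ⟨j, -, hj, hz⟩ := A5_exists_chart c i
  have hx' : x ∈ Set.range j := by
    rw [hj]
    exact hx
  obtain ⟨z, rfl⟩ := hx'
  exact ⟨PrimeSpectrum.asIdeal z, PrimeSpectrum.isPrime z, hz z⟩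

/-- AT12.  The codimension of a point is the height of the prime. -/
theorem Charts.coheight (c : Charts X U R) {i : ι} {x : X.left} (hx : x ∈ U i) (P : Ideal (R i))
    [P.IsPrime] (hP : ∀ a : R i, a ∈ P ↔ ((a : X.left.functionField) = 0 ∨
      (a : X.left.functionField)⁻¹ ∉ localRing k X x)) :
    coheight x = P.height := by
  obtain ⟨j, hjo, hj, hz⟩ := A5_exists_chart c i
  have hx' : x ∈ Set.range j := by
    rw [hj]
    exact hx
  obtain ⟨z, rfl⟩ := hx'
  have h1 : P = PrimeSpectrum.asIdeal z := by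
    ext a
    rw [hP a]
    exact (hz z a).symm
  rw [h1]
  exact (coheight_eq_of_isOpenImmersion j).trans (idealHeight_eq_coheight _ z).symm

end H1F
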