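import Pool.Agent.Lib.H1F.AT.A6

/-!
# H1F, part AT, chunk A7

Noetherian schemes, varieties.
-/

open CategoryTheory CategoryTheory.Limits AlgebraicGeometry Order

universe u

namespace H1F

variable {k : Type u} [Field k] {ι κ : Type} [Finite ι] [Nonempty ι] [Finite κ] [Nonempty κ]
  {X : Over (Spec (CommRingCat.of k))} [IsIntegral X.left] {U : ι → X.left.Opens}
  {R : ι → Subalgebra k X.left.functionField}

/-- Charts form an atlas. -/
theorem A7_atlas (c : Charts X U R) : Nonempty (Atlas R X) := by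
  have key : ∀ i, ∃ j : SpecS (R i) ⟶ X.left, IsOpenImmersion j ∧
      Set.range j = U i ∧ specGen (R i) ≫ j = A6_gen X := fun i ↦ by
    have hU := c.affine i
    have hne := c.nonempty i
    obtain ⟨θ, hθ⟩ := A5_equiv c i
    let Θ : Γ(X.left, U i) ⟶ CommRingCat.of (R i) := CommRingCat.ofHom θ.toRingHom
    have hiso : IsIso (Spec.map Θ) := isIso_SpecMap_iff.2 θ.bijective
    have hg : genericPoint X.left ∈ U i := by
      obtain ⟨⟨x, hx⟩⟩ := hne
      exact ((genericPoint_spec X.left).specializes trivial).mem_open (U i).isOpen hx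
    refine ⟨Spec.map Θ ≫ hU.fromSpec, inferInstance, ?_, ?_⟩
    · rw [← hU.range_fromSpec, Scheme.Hom.comp_base, TopCat.coe_comp, Set.range_comp]
      have : Set.range (Spec.map Θ) = Set.univ := (Spec.map Θ).surjective.range_eq
      rw [this, Set.image_univ]
    · have h2 : Θ ≫ CommRingCat.ofHom (R i).val.toRingHom =
          X.left.presheaf.germ (U i) (genericPoint X.left) hg := by
        ext s
        exact hθ s
      rw [specGen, ← Category.assoc, ← Spec.map_comp, h2]
      exact hU.fromSpecStalk_eq_fromSpecStalk hg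
  choose j hj1 hj2 hj3 using key
  refine ⟨⟨j, hj1, fun i ↦ ?_, fun x ↦ ?_, fun i i' ↦ by rw [hj3, hj3], c.separated⟩⟩
  · have h1 : A6_gen X ≫ X.hom =
        Spec.map (CommRingCat.ofHom (algebraMap k X.left.functionField)) := by
      rw [A6_gen, A3_fromSpecStalk]
      rfl
    rw [← hj3 i, Category.assoc] at h1
    rw [← Spec.map_preimage (j i ≫ X.hom)] at h1 ⊢
    rw [specGen, ← Spec.map_comp] at h1
    have h2 := Spec.map_injective h1
    rw [specBase]
    congr 1
    ext c
    exact congrArg (fun q ↦ q.hom c) h2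
  · obtain ⟨i, hi⟩ := c.cover x
    have h1 : x ∈ Set.range (j i) := by
      rw [hj2 i]
      exact hi
    obtain ⟨y, hy⟩ := h1
    exact ⟨i, y, hy⟩

/-- AT13.  Noetherian. -/
theorem Charts.isLocallyNoetherian (c : Charts X U R) (h : ∀ i, IsNoetherianRing (R i)) :
    IsLocallyNoetherian X.left := by
  refine isLocallyNoetherian_of_affine_cover (S := fun i ↦ ⟨U i, c.affine i⟩) ?_ fun i ↦ ?_
  · rw [eq_top_iff]
    intro x _
    obtain ⟨i, hi⟩ := c.cover x
    exact TopologicalSpace.Opens.mem_iSup.2 ⟨i, hi⟩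
  · obtain ⟨θ, -⟩ := A5_equiv c i
    have := h i
    exact isNoetherianRing_of_ringEquiv (R i) θ.symm

/-- AT14.  Varieties. -/
theorem Charts.variety (c : Charts X U R) (h : ∀ i, (R i).FG)
    (h' : ∀ i, IsIntegrallyClosed (R i)) : Variety k X := by
  obtain ⟨a⟩ := A7_atlas c
  have hc := FLIP.compactSpace a
  refine ⟨inferInstance, c.separated, FLIP.locallyOfFiniteType a h, inferInstance, fun x ↦ ?_⟩
  obtain ⟨i, hx⟩ := c.cover x
  have hU := c.affine i
  have hne := c.nonempty i
  obtain ⟨θ, -⟩ := A5_equiv c i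
  have := h' i
  have hn : IsIntegrallyClosed Γ(X.left, U i) := IsIntegrallyClosed.of_equiv θ.symm
  let _ := X.left.presheaf.algebra_section_stalk ⟨x, hx⟩
  have hloc := hU.isLocalization_stalk ⟨x, hx⟩
  exact isIntegrallyClosed_of_isLocalization _ _
    (hU.primeIdealOf ⟨x, hx⟩).asIdeal.primeCompl_le_nonZeroDivisors

end H1F
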