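import Pool.Agent.Lib.H1F.AT.A4

/-!
# H1F, part AT, chunk A8

Points of codimension one.
-/

open CategoryTheory CategoryTheory.Limits AlgebraicGeometry Order

universe u

namespace H1F

/-- A noetherian integrally closed domain is the intersection of its localizations at the primes
of height one. -/
theorem A8_hartogs {A K : Type*} [CommRing A] [IsDomain A] [IsNoetherianRing A]
    [IsIntegrallyClosed A] [Field K] [Algebra A K] [IsFractionRing A K] (f : K)
    (hf : ∀ a : A, algebraMap A K a ≠ f) :
    ∃ P : Ideal A, P.IsPrime ∧ P.height = 1 ∧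
      ∀ c a : A, algebraMap A K a = algebraMap A K c * f → c ∈ P := by
  classical
  let N : Submodule A K := LinearMap.range (Algebra.linearMap A K)
  have hN : ∀ x : K, x ∈ N ↔ ∃ a, algebraMap A K a = x := fun x ↦ Iff.rfl
  let x : K ⧸ N := N.mkQ f
  have hx : x ≠ 0 := by
    intro h
    have h1 : f ∈ N := (Submodule.Quotient.mk_eq_zero N).1 h
    obtain ⟨a, ha⟩ := (hN f).1 h1
    exact hf a ha
  obtain ⟨P, hP, hle⟩ := exists_le_isAssociatedPrime_of_isNoetherianRing A x hx
  obtain ⟨hPp, y, hy⟩ := (isAssociatedPrime_iff (R := A)).1 hP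
  obtain ⟨g, rfl⟩ := N.mkQ_surjective y
  have hmem : ∀ c : A, c ∈ P ↔ ∃ a, algebraMap A K a = algebraMap A K c * g := fun c ↦ by
    rw [hy, Submodule.mem_colon_singleton, ← map_smul, Submodule.mem_bot]
    rw [show N.mkQ (c • g) = 0 ↔ c • g ∈ N from Submodule.Quotient.mk_eq_zero N,
      Algebra.smul_def, hN]
  have hbot : P ≠ ⊥ := by
    obtain ⟨a, b, hb, hg⟩ := IsFractionRing.div_surjective (A := A) g
    have hb0 : b ≠ 0 := nonZeroDivisors.ne_zero hb
    have hb1 : algebraMap A K b ≠ 0 := by
      simpa using hb0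
    intro h
    have h1 : b ∈ P := by
      rw [hmem]
      refine ⟨a, ?_⟩
      rw [← hg]
      field_simp
    rw [h] at h1
    exact hb0 (Ideal.mem_bot.1 h1)
  have hg : ∀ a, algebraMap A K a ≠ g := by
    intro a ha
    have h1 : (1 : A) ∈ P := (hmem 1).2 ⟨a, by rw [ha, map_one, one_mul]⟩
    exact hPp.ne_top ((Ideal.eq_top_iff_one P).2 h1)
  have hcase : ∃ p ∈ P, ∃ a : A, a ∉ P ∧ algebraMap A K a = algebraMap A K p * g := by
    by_contra hcon
    push Not at hcon
    have hint : IsIntegral A g := by
      let M : Submodule A K := Submodule.map (Algebra.linearMap A K) P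
      refine isIntegral_of_smul_mem_submodule M ?_ ?_ g ?_
      · obtain ⟨p, hp, hp0⟩ := P.ne_bot_iff.1 hbot
        rw [Submodule.ne_bot_iff]
        refine ⟨algebraMap A K p, ⟨p, hp, rfl⟩, ?_⟩
        simpa using hp0
      · exact (IsNoetherian.noetherian P).map _
      · rintro _ ⟨p, hp, rfl⟩
        obtain ⟨a, ha⟩ := (hmem p).1 hp
        have h1 : a ∈ P := by
          by_contra h2
          exact hcon p hp a h2 ha
        refine ⟨a, h1, ?_⟩
        rw [Algebra.linearMap_apply, Algebra.linearMap_apply, ha, smul_eq_mul, mul_comm]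
    obtain ⟨a, ha⟩ := IsIntegrallyClosed.algebraMap_eq_of_integral hint
    exact hg a ha
  obtain ⟨p, hp, a, ha, hpa⟩ := hcase
  refine ⟨P, hPp, le_antisymm ?_ ?_, fun c a hca ↦ hle ?_⟩
  · refine Ideal.height_le_one_of_isPrincipal_of_mem_minimalPrimes (Ideal.span {p}) P ?_
    refine ⟨⟨hPp, (Ideal.span_singleton_le_iff_mem P).2 hp⟩, fun Q hQ hQP q hq ↦ ?_⟩
    have hpQ : p ∈ Q := (Ideal.span_singleton_le_iff_mem Q).1 hQ.2
    obtain ⟨c, hc⟩ := (hmem q).1 hq
    have h1 : q * a = p * c := by
      apply IsFractionRing.injective A K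
      rw [map_mul, map_mul, hpa, hc]
      ring
    have h2 : q * a ∈ Q := by
      rw [h1]
      exact Q.mul_mem_right c hpQ
    rcases hQ.1.mem_or_mem h2 with h3 | h3
    · exact h3
    · exact absurd (hQP h3) ha
  · rw [Order.one_le_iff_ne_zero, Ne, Ideal.height_eq_zero_iff_eq_bot]
    exact hbot
  · rw [Submodule.mem_colon_singleton, ← map_smul, Submodule.mem_bot]
    rw [show N.mkQ (c • f) = 0 ↔ c • f ∈ N from Submodule.Quotient.mk_eq_zero N,
      Algebra.smul_def, hN]
    exact ⟨a, hca⟩

variable {k : Type u} [Field k] {X : Over (Spec (CommRingCat.of k))} [IsIntegral X.left]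
  [IsLocallyNoetherian X.left]

/-- The stalk at a point of codimension one of a normal variety is a discrete valuation ring. -/
theorem A8_isDVR_stalk (hX : Variety k X) {z : X.left} (hz : coheight z = 1) :
    IsDiscreteValuationRing (X.left.presheaf.stalk z) := by
  have hn := hX.normal z
  have hdim : ringKrullDim (X.left.presheaf.stalk z) = 1 := by
    rw [ringKrullDim_stalk_eq_coheight, hz]
    rfl
  obtain ⟨hf, -⟩ := ringKrullDim_eq_one_iff_of_isLocalRing_isDomain.1 hdim
  have h1 : Ring.KrullDimLE 1 (X.left.presheaf.stalk z) := Ring.krullDimLE_iff.mpr (by simp [hdim])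
  have h3 : IsIntegrallyClosed (X.left.presheaf.stalk z) ∧
      ∀ P : Ideal (X.left.presheaf.stalk z), P ≠ ⊥ → P.IsPrime →
        P = IsLocalRing.maximalIdeal (X.left.presheaf.stalk z) := ⟨hn, fun P hP hP' ↦
        IsLocalRing.eq_maximalIdeal (Ring.krullDimLE_one_iff_of_noZeroDivisors.mp h1 P hP hP')⟩
  have h2 : IsPrincipalIdealRing (X.left.presheaf.stalk z) :=
    ((tfae_of_isNoetherianRing_of_isLocalRing_of_isDomain
      (X.left.presheaf.stalk z)).out 3 0).1 h3
  exact { h2 with not_a_field' := fun h ↦ hf (IsLocalRing.isField_iff_maximalIdeal_eq.2 h) }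

/-- The local ring at a point of codimension one of a normal variety is a discrete valuation
ring (`ringKrullDim` of the stalk is the codimension; noetherian, integrally closed). -/
theorem isDVR_localRing (hX : Variety k X) {z : X.left} (hz : coheight z = 1) :
    IsDiscreteValuationRing (localRing k X z) := by
  have := A8_isDVR_stalk hX hz
  obtain ⟨e, -⟩ := exists_localRing_equiv X z
  exact IsDiscreteValuationRing.RingEquivClass.isDiscreteValuationRing e

/-- AT17.  `HasOrd` and `ord` agree. -/
theorem hasOrd_iff (hX : Variety k X) {z : X.left} (hz : coheight z = 1)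
    {f : X.left.functionField} (hf : f ≠ 0) (n : ℤ) :
    HasOrd (localRing k X z) f n ↔ Scheme.ord f z = n := by
  have := A8_isDVR_stalk hX hz
  obtain ⟨e, he⟩ := exists_localRing_equiv X z
  have hK : Ring.KrullDimLE 1 (X.left.presheaf.stalk z) := krullDimLE_of_coheight_le hz.le
  rw [Scheme.ord_eq_iff hz hf]
  change _ ↔ Ring.ordFrac (X.left.presheaf.stalk z) f = _
  constructor
  · rintro ⟨π, ⟨hπ, hirr⟩, u, rfl⟩
    have h1 : Irreducible (e.symm ⟨π, hπ⟩) := (MulEquiv.irreducible_iff e.symm).2 hirr
    have h2 : algebraMap (X.left.presheaf.stalk z) X.left.functionField (e.symm ⟨π, hπ⟩) = π := by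
      rw [← he, RingEquiv.apply_symm_apply]
    have h3 : algebraMap (X.left.presheaf.stalk z) X.left.functionField
        (e.symm (u : localRing k X z)) = ((u : localRing k X z) : X.left.functionField) := by
      rw [← he, RingEquiv.apply_symm_apply]
    have h4 : IsUnit (e.symm (u : localRing k X z)) := u.isUnit.map e.symm
    rw [← h3, ← h2, map_mul, map_zpow₀, Ring.ordFrac_irreducible h1, Ring.ordFrac_of_isUnit h4,
      mul_one, ← WithZero.exp_zsmul, smul_eq_mul, mul_one]
    rfl
  · intro h
    obtain ⟨ϖ, hϖ⟩ := IsDiscreteValuationRing.exists_irreducible (X.left.presheaf.stalk z)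
    have h1 : Ring.ordFrac (X.left.presheaf.stalk z)
        (algebraMap (X.left.presheaf.stalk z) X.left.functionField ϖ ^ n) =
          Ring.ordFrac (X.left.presheaf.stalk z) f := by
      rw [h, map_zpow₀, Ring.ordFrac_irreducible hϖ, ← WithZero.exp_zsmul, smul_eq_mul, mul_one]
      rfl
    obtain ⟨u, hu⟩ := Ring.associated_of_ordFrac_eq _ _ h1
    refine ⟨e ϖ, ⟨(e ϖ).2, (MulEquiv.irreducible_iff e).2 hϖ⟩, Units.map e.toMonoidHom u, ?_⟩
    rw [← hu, Units.smul_def, Algebra.smul_def, mul_comm]
    congr 1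
    · rw [he]
    · exact (he _).symm

/-- AT15.  The order of vanishing and the local ring at a point of codimension one. -/
theorem ord_nonneg_iff (hX : Variety k X) {z : X.left} (hz : coheight z = 1)
    {f : X.left.functionField} (hf : f ≠ 0) : 0 ≤ Scheme.ord f z ↔ f ∈ localRing k X z := by
  constructor
  · intro h
    obtain ⟨m, hm⟩ := Int.eq_ofNat_of_zero_le h
    obtain ⟨π, ⟨hπ, -⟩, u, hu⟩ := (hasOrd_iff hX hz hf m).2 hm
    rw [hu, zpow_natCast]
    exact mul_mem (pow_mem hπ m) (u : localRing k X z).2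
  · intro h
    obtain ⟨s, rfl⟩ := (mem_localRing X z f).1 h
    have hK : Ring.KrullDimLE 1 (X.left.presheaf.stalk z) := krullDimLE_of_coheight_le hz.le
    have hs : s ≠ 0 := by
      rintro rfl
      exact hf (map_zero _)
    rw [Scheme.le_ord_iff hz hf]
    exact Ring.ordFrac_ge_one_of_ne_zero (R := X.left.presheaf.stalk z) hs

/-- AT18 (Hartogs).  A function without poles through `x` is regular at `x`: a noetherian
integrally closed domain is the intersection of its localizations at the primes of height one.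
(Proof: let `f = a/b ∉ A`; an associated prime `P = (b : c a)`-type ideal of `A/(b)` containing the
annihilator of the class of `a` has height one, because `A_P` is an integrally closed local domain
whose maximal ideal is `(b : c)`, hence principal.) -/
theorem mem_localRing_of_ord_nonneg (hX : Variety k X) (x : X.left)
    (f : X.left.functionField)
    (h : ∀ z, coheight z = 1 → z ⤳ x → 0 ≤ Scheme.ord f z) : f ∈ localRing k X x := by
  by_contra hcon
  have hf0 : f ≠ 0 := by
    rintro rfl
    exact hcon (zero_mem _)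
  have hn := hX.normal x
  obtain ⟨P, hP, hP1, hPf⟩ := A8_hartogs (A := X.left.presheaf.stalk x) f fun a ha ↦
    hcon ((mem_localRing X x f).2 ⟨a, ha⟩)
  obtain ⟨_, ⟨V, hV₀, rfl⟩, hxV, -⟩ :=
    X.left.isBasis_affineOpens.exists_subset_of_mem_open (Set.mem_univ x) isOpen_univ
  have hV : IsAffineOpen V := hV₀
  have hxV' : x ∈ V := hxV
  have hne : Nonempty V := ⟨⟨x, hxV⟩⟩
  let ax := X.left.presheaf.algebra_section_stalk ⟨x, hxV'⟩
  have hlocx := hV.isLocalization_stalk ⟨x, hxV'⟩
  let P' : Ideal Γ(X.left, V) := P.comap (X.left.presheaf.germ V x hxV').hom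
  have hP' : P'.IsPrime := hP.comap _
  let y : Spec Γ(X.left, V) := (⟨P', hP'⟩ : PrimeSpectrum Γ(X.left, V))
  let z := hV.fromSpec y
  have hzV : z ∈ V := by
    have h1 : z ∈ Set.range hV.fromSpec := ⟨y, rfl⟩
    rw [hV.range_fromSpec] at h1
    exact h1
  have hzy : hV.primeIdealOf ⟨z, hzV⟩ = y := by
    apply hV.fromSpec.isOpenEmbedding.injective
    rw [hV.fromSpec_primeIdealOf]
  let az := X.left.presheaf.algebra_section_stalk ⟨z, hzV⟩
  have hlocz := hV.isLocalization_stalk ⟨z, hzV⟩
  have hz1 : coheight z = 1 := by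
    rw [← hP1]
    have h1 : (P.comap (algebraMap Γ(X.left, V) (X.left.presheaf.stalk x))).height = P.height :=
      IsLocalization.height_under (hV.primeIdealOf ⟨x, hxV'⟩).asIdeal.primeCompl P
    rw [← h1]
    exact (coheight_eq_of_isOpenImmersion hV.fromSpec).trans (idealHeight_eq_coheight _ y).symm
  have hzx : z ⤳ x := by
    have h1 : y ⤳ hV.primeIdealOf ⟨x, hxV'⟩ := by
      refine (PrimeSpectrum.le_iff_specializes _ _).1 fun a ha ↦ ?_
      have h2 := (IsLocalization.AtPrime.to_map_mem_maximal_iff (X.left.presheaf.stalk x)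
        (hV.primeIdealOf ⟨x, hxV'⟩).asIdeal a).1
      exact h2 (IsLocalRing.le_maximalIdeal hP.ne_top ha)
    have h2 := h1.map hV.fromSpec.continuous
    rw [hV.fromSpec_primeIdealOf] at h2
    exact h2
  have hfz := (ord_nonneg_iff hX hz1 hf0).1 (h z hz1 hzx)
  obtain ⟨t, ht⟩ := (mem_localRing X z f).1 hfz
  obtain ⟨a, s, hs⟩ := IsLocalization.exists_mk'_eq
    (hV.primeIdealOf ⟨z, hzV⟩).asIdeal.primeCompl t
  have h2 : t * X.left.presheaf.germ V z hzV s = X.left.presheaf.germ V z hzV a := by
    rw [← hs]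
    exact IsLocalization.mk'_spec _ _ _
  have h3 := congrArg (algebraMap (X.left.presheaf.stalk z) X.left.functionField) h2
  rw [map_mul, Scheme.algebraMap_germ_eq_germToFunctionField,
    Scheme.algebraMap_germ_eq_germToFunctionField, ht, mul_comm] at h3
  have h4 : X.left.presheaf.germ V x hxV' s ∈ P := by
    refine hPf _ (X.left.presheaf.germ V x hxV' a) ?_
    rw [Scheme.algebraMap_germ_eq_germToFunctionField,
      Scheme.algebraMap_germ_eq_germToFunctionField]
    exact h3.symm
  have h5 : P' = (hV.primeIdealOf ⟨z, hzV⟩).asIdeal := by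
    rw [hzy]
  exact s.2 (h5.le h4)

end H1F
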