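import Pool.Agent.Lib.H1F.AT.A6
import Pool.Agent.Lib.H1F.AT.A8

/-!
# H1F, part AT, chunk A9

The ampleness criterion.
-/

open CategoryTheory CategoryTheory.Limits AlgebraicGeometry Order

universe u

namespace H1F

variable {k : Type u} [Field k] {ι κ : Type} [Finite ι] [Nonempty ι] [Finite κ] [Nonempty κ]
  {X : Over (Spec (CommRingCat.of k))} [IsIntegral X.left] {U : ι → X.left.Opens}
  {R : ι → Subalgebra k X.left.functionField} [IsLocallyNoetherian X.left]

omit [Finite ι] [Nonempty ι] in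
/-- A divisor with local equations is Cartier. -/
theorem isCartier_of_charts (c : Charts X U R) {D : X.left → ℤ}
    {d : ι → X.left.functionField} (hd : ∀ i, d i ≠ 0)
    (hD : ∀ i, ∀ z ∈ U i, coheight z = 1 → D z = Scheme.ord (d i) z) : IsCartier D := by
  intro x
  obtain ⟨i, hi⟩ := c.cover x
  exact ⟨U i, hi, d i, hd i, fun z hz h1 ↦ (hD i z hz h1).symm⟩

omit [Finite ι] [Nonempty ι] in
theorem A9_ord_one (z : X.left) : Scheme.ord (1 : X.left.functionField) z = 0 := by
  have h := Scheme.ord_mul (x := z) (one_ne_zero (α := X.left.functionField))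
    (one_ne_zero (α := X.left.functionField))
  rw [one_mul] at h
  omega

omit [Finite ι] [Nonempty ι] in
theorem A9_ord_pow {f : X.left.functionField} (hf : f ≠ 0) (n : ℕ) (z : X.left) :
    Scheme.ord (f ^ n) z = n * Scheme.ord f z := by
  induction n with
  | zero => rw [pow_zero, A9_ord_one, Nat.cast_zero, zero_mul]
  | succ n ih =>
    rw [pow_succ, Scheme.ord_mul (pow_ne_zero n hf) hf, ih]
    push_cast
    ring

omit [Finite ι] [Nonempty ι] in
theorem A9_ord_inv {f : X.left.functionField} (hf : f ≠ 0) (z : X.left) :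
    Scheme.ord f⁻¹ z = - Scheme.ord f z := by
  have h := Scheme.ord_mul (x := z) hf (inv_ne_zero hf)
  rw [mul_inv_cancel₀ hf, A9_ord_one] at h
  omega

/-- AT20 (ampleness criterion).  `f : X ⟶ Y`, the affine open sets `V j` cover `Y`; the charts
`i` with `J i j` cover the preimage of `V j`.  The divisor `D` has the local equation `d i` on the
chart `i`; `t i j` is a section of `n D` over the preimage of `V j`, whose non-vanishing locus is
`U i`.  (Cartier: clear.  `U i` is the non-vanishing locus: if `ord (t i j) z + n D z = 0` for all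
codimension one `z ⤳ x'`, `x' ∈ U i'`, then `(t i j * d i' ^ n)⁻¹ ∈ O_x'` by AT18.) -/
theorem ample_of_sections {Y : Scheme.{u}} (f : X.left ⟶ Y) (hX : Variety k X)
    (c : Charts X U R) {D : X.left → ℤ} {d : ι → X.left.functionField} (hd : ∀ i, d i ≠ 0)
    (hD : ∀ i, ∀ z ∈ U i, coheight z = 1 → D z = Scheme.ord (d i) z)
    {κ : Type} (V : κ → Y.Opens) (hV : ∀ j, IsAffineOpen (V j)) (hVc : ∀ y, ∃ j, y ∈ V j)
    (J : ι → κ → Prop) (hJ : ∀ i j, J i j → ∀ x ∈ U i, f x ∈ V j)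
    (hJ' : ∀ x j, f x ∈ V j → ∃ i, J i j ∧ x ∈ U i)
    (n : ι → κ → ℕ) (hn : ∀ i j, 0 < n i j) (t : ι → κ → X.left.functionField)
    (ht : ∀ i j, t i j ≠ 0)
    (hreg : ∀ j i i', J i j → J i' j → t i j * d i' ^ n i j ∈ R i')
    (hunit : ∀ j i i', J i j → J i' j → ∀ x ∈ U i',
      ((t i j * d i' ^ n i j)⁻¹ ∈ localRing k X x ↔ x ∈ U i)) :
    Ample f D := by
  have key : ∀ i j i' z, z ∈ U i' → coheight z = 1 →
      Scheme.ord (t i j) z + n i j * D z = Scheme.ord (t i j * d i' ^ n i j) z := by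
    intro i j i' z hz h1
    rw [Scheme.ord_mul (ht i j) (pow_ne_zero _ (hd i')), A9_ord_pow (hd i'), hD i' z hz h1]
  have hne : ∀ i j i', t i j * d i' ^ n i j ≠ 0 := fun i j i' ↦
    mul_ne_zero (ht i j) (pow_ne_zero _ (hd i'))
  refine ⟨isCartier_of_charts c hd hD, fun y ↦ ?_⟩
  obtain ⟨j, hj⟩ := hVc y
  refine ⟨V j, hV j, hj, fun x hx ↦ ?_⟩
  obtain ⟨i, hij, hxi⟩ := hJ' x j hx
  have hnn : ∀ z : X.left, coheight z = 1 → f z ∈ V j →
      0 ≤ Scheme.ord (t i j) z + n i j * D z := by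
    intro z h1 hz
    obtain ⟨i', hi'j, hzi'⟩ := hJ' z j hz
    rw [key i j i' z hzi' h1]
    exact (ord_nonneg_iff hX h1 (hne i j i')).2 (A5_le c hzi' (hreg j i i' hij hi'j))
  refine ⟨n i j, t i j, hn i j, ht i j, hnn, U i, c.affine i, hxi, fun x' ↦ ⟨fun hx' ↦
    ⟨hJ i j hij x' hx', fun z h1 hzx ↦ ?_⟩, ?_⟩⟩
  · have hz : z ∈ U i := hzx.mem_open (U i).isOpen hx'
    refine le_antisymm ?_ (hnn z h1 (hJ i j hij z hz))
    have h2 := (hunit j i i hij hij z hz).2 hz
    have h3 := (ord_nonneg_iff hX h1 (inv_ne_zero (hne i j i))).2 h2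
    rw [A9_ord_inv (hne i j i)] at h3
    rw [key i j i z hz h1]
    omega
  · rintro ⟨hfx, h0⟩
    obtain ⟨i', hi'j, hxi'⟩ := hJ' x' j hfx
    refine (hunit j i i' hij hi'j x' hxi').1 ?_
    refine mem_localRing_of_ord_nonneg hX x' _ fun z h1 hzx ↦ ?_
    have hz : z ∈ U i' := hzx.mem_open (U i').isOpen hxi'
    rw [A9_ord_inv (hne i j i'), ← key i j i' z hz h1, h0 z h1 hzx, neg_zero]

end H1F
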