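import Pool.Agent.Lib.H1F.AT.A1
import Pool.Agent.Lib.H1F.AT.A2
import Pool.Agent.Lib.H1F.AT.A6
import Pool.Agent.Lib.H1F.AT.A7
import Pool.Agent.Lib.H1F.AT.A9

/-!
# H1F, part AT: all files
-/
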